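import Mathlib

set_option autoImplicit false

/-!
# Transfer of densities between multiplicative functions with values in a group
-/

namespace Pool.Agent.H489R2

open Finset Filter Topology

open Classical in
/-- number of `n ∈ [1, N]` with `F n = a` -/
noncomputable def cnt {G : Type*} (F : ℕ → G) (a : G) (N : ℕ) : ℝ :=
  ∑ n ∈ Ioc 0 N, if F n = a then (1 : ℝ) else 0

/-- every value is taken on a set with a density -/
def HasDens {G : Type*} (F : ℕ → G) : Prop :=
  ∀ a, ∃ d : ℝ, Tendsto (fun N : ℕ => cnt F a N / N) atTop (𝓝 d)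

lemma cnt_nonneg {G : Type*} (F : ℕ → G) (a : G) (N : ℕ) : 0 ≤ cnt F a N := by
  unfold cnt
  refine Finset.sum_nonneg fun n _ => ?_
  split_ifs <;> norm_num

lemma cnt_le {G : Type*} (F : ℕ → G) (a : G) (N : ℕ) : cnt F a N ≤ N := by
  unfold cnt
  refine (Finset.sum_le_sum (g := fun _ => (1 : ℝ)) fun n _ => ?_).trans ?_
  · split_ifs <;> norm_num
  · simp

lemma tendsto_div_nat (m : ℕ) (hm : 0 < m) :
    Tendsto (fun N : ℕ => ((N / m : ℕ) : ℝ) / N) atTop (𝓝 (1 / m)) := by
  have hm' : (0 : ℝ) < m := by exact_mod_cast hm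
  have h1 : Tendsto (fun N : ℕ => 1 / (m : ℝ) - 1 / (N : ℝ)) atTop (𝓝 (1 / m - 0)) :=
    tendsto_const_nhds.sub tendsto_one_div_atTop_nhds_zero_nat
  rw [sub_zero] at h1
  refine tendsto_of_tendsto_of_tendsto_of_le_of_le' h1 tendsto_const_nhds ?_ ?_
  · filter_upwards [eventually_gt_atTop 0] with N hN
    have hN' : (0 : ℝ) < N := by exact_mod_cast hN
    rw [le_div_iff₀ hN']
    have h2 : (N : ℝ) < ((N / m : ℕ) + 1) * m := by
      have : N < (N / m + 1) * m := by
        have h3 := Nat.div_add_mod N m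
        have h4 := Nat.mod_lt N hm
        nlinarith
      exact_mod_cast this
    have h3 : (1 / (m : ℝ) - 1 / N) * N = N / m - 1 := by field_simp
    rw [h3, sub_le_iff_le_add, div_le_iff₀ hm']
    exact h2.le
  · filter_upwards [eventually_gt_atTop 0] with N hN
    have hN' : (0 : ℝ) < N := by exact_mod_cast hN
    rw [div_le_iff₀ hN']
    calc ((N / m : ℕ) : ℝ) ≤ (N : ℝ) / m := Nat.cast_div_le
      _ = 1 / m * N := by ring

/-- composition of a mean value with `N ↦ N / m` -/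
lemma tendsto_mean_div (D : ℕ → ℝ) (δ : ℝ) (m : ℕ) (hm : 0 < m)
    (h : Tendsto (fun N : ℕ => D N / N) atTop (𝓝 δ)) (h0 : D 0 = 0) :
    Tendsto (fun N : ℕ => D (N / m) / N) atTop (𝓝 (δ / m)) := by
  have h1 : Tendsto (fun N : ℕ => N / m) atTop atTop := Nat.tendsto_div_const_atTop hm.ne'
  have h2 := (h.comp h1).mul (tendsto_div_nat m hm)
  have e : δ * (1 / m) = δ / m := by ring
  rw [e] at h2
  refine h2.congr fun N => ?_
  simp only [Function.comp_apply]
  rcases Nat.eq_zero_or_pos (N / m) with h3 | h3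
  · rw [h3, h0]; simp
  · have : ((N / m : ℕ) : ℝ) ≠ 0 := by exact_mod_cast h3.ne'
    field_simp

/-- a Tannery type lemma -/
lemma tendsto_tannery (p : ℕ) (hp : 2 ≤ p) (D : ℕ → ℕ → ℝ) (δ : ℕ → ℝ)
    (hD : ∀ k N, |D k N| ≤ N) (h : ∀ k, Tendsto (fun N : ℕ => D k N / N) atTop (𝓝 (δ k))) :
    Tendsto (fun N : ℕ => (∑ k ∈ range (N + 1), D k (N / p ^ k)) / N) atTop
      (𝓝 (∑' k, δ k / ((p ^ k : ℕ) : ℝ))) := by
  have hp0 : 0 < p := by omega
  have hp' : (2 : ℝ) ≤ p := by exact_mod_cast hp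
  have hD0 : ∀ k, D k 0 = 0 := fun k => by
    have := hD k 0
    simpa using this
  have h1 : Tendsto (fun N : ℕ => ∑' k, D k (N / p ^ k) / N) atTop
      (𝓝 (∑' k, δ k / ((p ^ k : ℕ) : ℝ))) := by
    refine tendsto_tsum_of_dominated_convergence (bound := fun k => (1 / (p : ℝ)) ^ k) ?_ ?_ ?_
    · apply summable_geometric_of_lt_one (by positivity)
      rw [div_lt_one (by positivity)]
      linarith
    · intro k
      exact tendsto_mean_div (D k) (δ k) (p ^ k) (by positivity) (h k) (hD0 k)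
    · filter_upwards [eventually_gt_atTop 0] with N hN k
      have hN' : (0 : ℝ) < N := by exact_mod_cast hN
      rw [Real.norm_eq_abs, abs_div, abs_of_pos hN', div_le_iff₀ hN']
      refine (hD k _).trans ?_
      calc ((N / p ^ k : ℕ) : ℝ) ≤ (N : ℝ) / ((p ^ k : ℕ) : ℝ) := Nat.cast_div_le
        _ = (1 / (p : ℝ)) ^ k * N := by push_cast; rw [one_div, inv_pow]; ring
  refine h1.congr fun N => ?_
  rw [tsum_eq_sum (s := range (N + 1)), Finset.sum_div]
  intro k hk
  rw [Finset.mem_range, not_lt] at hk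
  have : N / p ^ k = 0 := by
    apply Nat.div_eq_of_lt
    calc N < k := by omega
      _ < 2 ^ k := Nat.lt_two_pow_self
      _ ≤ p ^ k := Nat.pow_le_pow_left hp k
  rw [this, hD0, zero_div]

/-- decomposition by the exact power of `p` -/
lemma sum_decomp (p : ℕ) (hp : p.Prime) (w : ℕ → ℝ) (N : ℕ) :
    ∑ n ∈ Ioc 0 N, w n =
      ∑ k ∈ range (N + 1), ∑ t ∈ (Ioc 0 (N / p ^ k)).filter (fun t => ¬ p ∣ t), w (p ^ k * t) := by
  have h1 : ∀ n ∈ Ioc 0 N, n.factorization p ∈ range (N + 1) := by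
    intro n hn
    rw [Finset.mem_Ioc] at hn
    rw [Finset.mem_range]
    have := Nat.factorization_lt p hn.1.ne'
    omega
  rw [← Finset.sum_fiberwise_of_maps_to h1]
  refine Finset.sum_congr rfl fun k _ => ?_
  refine Finset.sum_nbij' (fun n => n / p ^ k) (fun t => p ^ k * t) ?_ ?_ ?_ ?_ ?_
  · intro n hn
    simp only [Finset.mem_filter, Finset.mem_Ioc] at hn ⊢
    obtain ⟨⟨hn0, hnN⟩, hnk⟩ := hn
    have hdvd : p ^ k ∣ n := by rw [← hnk]; exact Nat.ordProj_dvd n p
    refine ⟨⟨Nat.div_pos (Nat.le_of_dvd hn0 hdvd) (by positivity [hp.pos]), Nat.div_le_div_right hnN⟩, ?_⟩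
    rw [← hnk]
    exact Nat.not_dvd_ordCompl hp hn0.ne'
  · intro t ht
    simp only [Finset.mem_filter, Finset.mem_Ioc] at ht ⊢
    obtain ⟨⟨ht0, htN⟩, htk⟩ := ht
    have hpk : 0 < p ^ k := pow_pos hp.pos k
    refine ⟨⟨Nat.mul_pos hpk ht0, ?_⟩, ?_⟩
    · rw [mul_comm]; exact (Nat.le_div_iff_mul_le hpk).mp htN
    · rw [Nat.factorization_mul hpk.ne' ht0.ne', Finsupp.add_apply, hp.factorization_pow,
        Nat.factorization_eq_zero_of_not_dvd htk]
      simp
  · intro n hn
    simp only [Finset.mem_filter, Finset.mem_Ioc] at hn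
    obtain ⟨⟨hn0, hnN⟩, hnk⟩ := hn
    have hdvd : p ^ k ∣ n := by rw [← hnk]; exact Nat.ordProj_dvd n p
    exact Nat.mul_div_cancel' hdvd
  · intro t ht
    exact Nat.mul_div_cancel_left t (pow_pos hp.pos k)
  · intro n hn
    simp only [Finset.mem_filter, Finset.mem_Ioc] at hn
    obtain ⟨⟨hn0, hnN⟩, hnk⟩ := hn
    have hdvd : p ^ k ∣ n := by rw [← hnk]; exact Nat.ordProj_dvd n p
    show w n = w (p ^ k * (n / p ^ k))
    rw [Nat.mul_div_cancel' hdvd]

/-- the sum over the integers prime to `p` -/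
lemma sum_coprime (p : ℕ) (hp : p.Prime) (w : ℕ → ℝ) (M : ℕ) :
    ∑ t ∈ (Ioc 0 M).filter (fun t => ¬ p ∣ t), w t =
      ∑ n ∈ Ioc 0 M, w n - ∑ m ∈ Ioc 0 (M / p), w (p * m) := by
  rw [eq_sub_iff_add_eq, ← Finset.sum_filter_add_sum_filter_not (Ioc 0 M) (fun t => ¬ p ∣ t) w]
  congr 1
  symm
  refine Finset.sum_nbij' (fun n => n / p) (fun m => p * m) ?_ ?_ ?_ ?_ ?_
  · intro n hn
    simp only [Finset.mem_filter, Finset.mem_Ioc, not_not] at hn ⊢
    obtain ⟨⟨hn0, hnN⟩, hnk⟩ := hn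
    exact ⟨Nat.div_pos (Nat.le_of_dvd hn0 hnk) hp.pos, Nat.div_le_div_right hnN⟩
  · intro m hm
    simp only [Finset.mem_filter, Finset.mem_Ioc, not_not] at hm ⊢
    obtain ⟨hm0, hmN⟩ := hm
    refine ⟨⟨Nat.mul_pos hp.pos hm0, ?_⟩, dvd_mul_right _ _⟩
    rw [mul_comm]; exact (Nat.le_div_iff_mul_le hp.pos).mp hmN
  · intro n hn
    simp only [Finset.mem_filter, Finset.mem_Ioc, not_not] at hn
    exact Nat.mul_div_cancel' hn.2
  · intro m hm
    exact Nat.mul_div_cancel_left m hp.pos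
  · intro n hn
    simp only [Finset.mem_filter, Finset.mem_Ioc, not_not] at hn
    show w n = w (p * (n / p))
    rw [Nat.mul_div_cancel' hn.2]

/-- changing a function at one prime -/
lemma hasDens_step {G : Type*} [Group G] (p : ℕ) (hp : p.Prime) (F F' : ℕ → G) (c : G)
    (z : ℕ → G) (hc : ∀ m, 0 < m → F (p * m) = c * F m)
    (hz : ∀ k t, 0 < t → ¬ p ∣ t → F' (p ^ k * t) = z k * F t) (hF : HasDens F) :
    HasDens F' := by
  classical
  intro a
  choose d hd using hF
  set b : ℕ → G := fun k => (z k)⁻¹ * a with hb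
  set D : ℕ → ℕ → ℝ := fun k M =>
    ∑ t ∈ (Ioc 0 M).filter (fun t => ¬ p ∣ t), if F t = b k then (1 : ℝ) else 0 with hDdef
  have hD1 : ∀ k M, D k M = cnt F (b k) M - cnt F (c⁻¹ * b k) (M / p) := by
    intro k M
    rw [hDdef]
    simp only
    rw [sum_coprime p hp]
    unfold cnt
    congr 1
    refine Finset.sum_congr rfl fun m hm => ?_
    rw [Finset.mem_Ioc] at hm
    rw [hc m hm.1]
    have : (c * F m = b k) ↔ (F m = c⁻¹ * b k) := eq_inv_mul_iff_mul_eq.symm
    simp only [this]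
  have hD2 : ∀ k M, |D k M| ≤ M := by
    intro k M
    rw [abs_of_nonneg]
    · have h1 : D k M ≤ ∑ t ∈ Ioc 0 M, if F t = b k then (1 : ℝ) else 0 :=
        Finset.sum_le_sum_of_subset_of_nonneg (Finset.filter_subset _ _) fun n _ _ => by
          split_ifs <;> norm_num
      refine h1.trans ?_
      have := cnt_le F (b k) M
      unfold cnt at this
      convert this using 2
    · refine Finset.sum_nonneg fun n _ => ?_
      split_ifs <;> norm_num
  have hD3 : ∀ k, Tendsto (fun N : ℕ => D k N / N) atTop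
      (𝓝 (d (b k) - d (c⁻¹ * b k) / p)) := by
    intro k
    have h1 := hd (b k)
    have h2 := tendsto_mean_div _ _ p hp.pos (hd (c⁻¹ * b k)) (by simp [cnt])
    refine (h1.sub h2).congr fun N => ?_
    rw [hD1]
    ring
  have h3 := tendsto_tannery p hp.two_le D _ hD2 hD3
  refine ⟨_, h3.congr fun N => ?_⟩
  congr 1
  unfold cnt
  rw [sum_decomp p hp]
  refine Finset.sum_congr rfl fun k _ => ?_
  refine Finset.sum_congr rfl fun t ht => ?_
  simp only [Finset.mem_filter, Finset.mem_Ioc] at ht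
  rw [hz k t ht.1.1 ht.2]
  have : (z k * F t = a) ↔ (F t = b k) := by
    rw [hb, eq_inv_mul_iff_mul_eq]
  simp only [this]

/-- the hybrid function: `f` at the primes below `y`, `f₀` beyond. -/
noncomputable def hyb {G : Type*} [Group G] (f f₀ : ℕ → G) : ℕ → ℕ → G
  | 0, n => f₀ n
  | y + 1, n => if y.Prime then
      f (y ^ (n.factorization y)) * hyb f f₀ y (n / y ^ (n.factorization y)) else hyb f f₀ y n

section
variable {G : Type*} [Group G] (f f₀ : ℕ → G) (hf1 : f 1 = 1)
  (hf : ∀ m n, 0 < m → 0 < n → Nat.Coprime m n → f (m * n) = f m * f n)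
  (h₀1 : f₀ 1 = 1) (h₀ : ∀ p m, p.Prime → 0 < m → f₀ (p * m) = f₀ p * f₀ m)
  (hcomm : ∀ p q k, p.Prime → q.Prime → p ≠ q → f (q ^ k) * f₀ p = f₀ p * f (q ^ k))

include h₀ hcomm in
lemma hyb_mul (y : ℕ) : ∀ p m : ℕ, p.Prime → y ≤ p → 0 < m →
    hyb f f₀ y (p * m) = f₀ p * hyb f f₀ y m := by
  induction y with
  | zero => intro p m hp _ hm; exact h₀ p m hp hm
  | succ y ih =>
    intro p m hp hyp hm
    unfold hyb
    by_cases hy : y.Prime
    · rw [if_pos hy, if_pos hy]
      have hne : p ≠ y := by omega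
      have h1 : (p * m).factorization y = m.factorization y := by
        rw [Nat.factorization_mul hp.ne_zero hm.ne', Finsupp.add_apply, hp.factorization,
          Finsupp.single_apply, if_neg hne, zero_add]
      rw [h1]
      have h2 : y ^ m.factorization y ∣ m := Nat.ordProj_dvd m y
      rw [Nat.mul_div_assoc _ h2]
      have h3 : 0 < m / y ^ m.factorization y := Nat.ordCompl_pos y hm.ne'
      rw [ih p _ hp (by omega) h3, ← mul_assoc, hcomm p y _ hp hy hne, mul_assoc]
    · rw [if_neg hy, if_neg hy]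
      exact ih p m hp (by omega) hm

include h₀ hcomm in
lemma hyb_hasDens (hd : HasDens f₀) (y : ℕ) : HasDens (hyb f f₀ y) := by
  induction y with
  | zero => exact hd
  | succ y ih =>
    by_cases hy : y.Prime
    · refine hasDens_step y hy (hyb f f₀ y) (hyb f f₀ (y + 1)) (f₀ y) (fun k => f (y ^ k)) ?_ ?_ ih
      · intro m hm
        exact hyb_mul f f₀ h₀ hcomm y y m hy le_rfl hm
      · intro k t ht hyt
        have h1 : (y ^ k * t).factorization y = k := by
          rw [Nat.factorization_mul (pow_pos hy.pos k).ne' ht.ne', Finsupp.add_apply,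
            hy.factorization_pow, Nat.factorization_eq_zero_of_not_dvd hyt]
          simp
        show (if y.Prime then f (y ^ ((y ^ k * t).factorization y)) *
          hyb f f₀ y ((y ^ k * t) / y ^ ((y ^ k * t).factorization y)) else _) = _
        rw [if_pos hy, h1, Nat.mul_div_cancel_left t (pow_pos hy.pos k)]
    · have : hyb f f₀ (y + 1) = hyb f f₀ y := by
        ext n
        show (if y.Prime then _ else _) = _
        rw [if_neg hy]
      rw [this]
      exact ih

include hf1 hf h₀1 h₀ in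
lemma agree_base (n : ℕ) : 0 < n → (∀ p, p.Prime → p ∣ n → ¬ p ^ 2 ∣ n ∧ f p = f₀ p) →
    f₀ n = f n := by
  induction n using Nat.strong_induction_on with
  | _ n ih =>
    intro hn h
    rcases eq_or_ne n 1 with rfl | hn1
    · rw [h₀1, hf1]
    · have hp := Nat.minFac_prime hn1
      have hpd := Nat.minFac_dvd n
      set p := n.minFac with hpdef
      obtain ⟨m, hm⟩ := hpd
      have hm0 : 0 < m := by
        rcases Nat.eq_zero_or_pos m with rfl | h'
        · omega
        · exact h'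
      have hpm : ¬ p ∣ m := by
        intro h'
        apply (h p hp ⟨m, hm⟩).1
        rw [hm, sq]
        exact Nat.mul_dvd_mul_left p h'
      have hlt : m < n := by
        rw [hm]
        exact lt_mul_of_one_lt_left hm0 hp.one_lt
      have h1 := ih m hlt hm0 (fun q hq hqm => by
        have := h q hq (hm ▸ Dvd.dvd.mul_left hqm p)
        refine ⟨fun h' => this.1 (hm ▸ Dvd.dvd.mul_left h' p), this.2⟩)
      rw [hm, h₀ p m hp hm0, hf p m hp.pos hm0 ((Nat.Prime.coprime_iff_not_dvd hp).mpr hpm),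
        h1, (h p hp ⟨m, hm⟩).2]

include hf1 hf h₀1 h₀ in
lemma hyb_agree (y : ℕ) : ∀ n, 0 < n →
    (∀ p, p.Prime → y ≤ p → p ∣ n → ¬ p ^ 2 ∣ n ∧ f p = f₀ p) → hyb f f₀ y n = f n := by
  induction y with
  | zero =>
    intro n hn h
    exact agree_base f f₀ hf1 hf h₀1 h₀ n hn fun p hp => h p hp (Nat.zero_le p)
  | succ y ih =>
    intro n hn h
    show (if y.Prime then _ else _) = _
    by_cases hy : y.Prime
    · rw [if_pos hy]
      have h1 : 0 < n / y ^ n.factorization y := Nat.ordCompl_pos y hn.ne'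
      have h2 : ¬ y ∣ n / y ^ n.factorization y := Nat.not_dvd_ordCompl hy hn.ne'
      have h3 : n / y ^ n.factorization y ∣ n := Nat.ordCompl_dvd n y
      rw [ih _ h1]
      · rw [← hf _ _ (pow_pos hy.pos _) h1]
        · rw [Nat.mul_div_cancel' (Nat.ordProj_dvd n y)]
        · exact Nat.Coprime.pow_left _ ((Nat.Prime.coprime_iff_not_dvd hy).mpr h2)
      · intro p hp hyp hpn
        have hne : p ≠ y := by
          rintro rfl
          exact h2 hpn
        have := h p hp (by omega) (hpn.trans h3)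
        exact ⟨fun h' => this.1 (h'.trans h3), this.2⟩
    · rw [if_neg hy]
      apply ih n hn
      intro p hp hyp hpn
      have hne : p ≠ y := by
        rintro rfl
        exact hy hp
      exact h p hp (by omega) hpn

/-- the weights of the exceptional primes -/
noncomputable def ew (p : ℕ) : ℝ := by
  classical
  exact if p.Prime then 1 / (p : ℝ) ^ 2 + (if f p ≠ f₀ p then 1 / (p : ℝ) else 0) else 0

omit [Group G] in
lemma ew_nonneg (p : ℕ) : 0 ≤ ew f f₀ p := by
  unfold ew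
  split_ifs <;> positivity

omit [Group G] in
open Classical in
lemma ew_summable
    (hsum : Summable fun p : ℕ => if p.Prime ∧ f p ≠ f₀ p then 1 / (p : ℝ) else 0) :
    Summable (ew f f₀) := by
  have h1 : Summable fun p : ℕ => 1 / (p : ℝ) ^ 2 := Real.summable_one_div_nat_pow.mpr (by norm_num)
  refine Summable.of_nonneg_of_le (ew_nonneg f f₀) (fun p => ?_) (h1.add hsum)
  unfold ew
  by_cases hp : p.Prime
  · by_cases hfp : f p = f₀ p
    · simp [hp, hfp]
    · simp [hp, hfp]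
  · rw [if_neg hp]
    have : ¬ (p.Prime ∧ f p ≠ f₀ p) := fun h => hp h.1
    rw [if_neg this]
    positivity

lemma card_dvd_le (m : ℕ) (N : ℕ) :
    (((Ioc 0 N).filter (fun n => m ∣ n)).card : ℝ) ≤ N * (1 / m) := by
  rw [Nat.Ioc_filter_dvd_card_eq_div]
  calc ((N / m : ℕ) : ℝ) ≤ (N : ℝ) / m := Nat.cast_div_le
    _ = N * (1 / m) := by ring

include hf1 hf h₀1 h₀ in
open Classical in
lemma bad_le (hsum : Summable fun p : ℕ => if p.Prime ∧ f p ≠ f₀ p then 1 / (p : ℝ) else 0)
    (y N : ℕ) :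
    (((Ioc 0 N).filter (fun n => hyb f f₀ y n ≠ f n)).card : ℝ) ≤
      N * ∑' k, ew f f₀ (k + y) := by
  have hs := ew_summable f f₀ hsum
  -- the bad set is covered
  have h1 : (Ioc 0 N).filter (fun n => hyb f f₀ y n ≠ f n) ⊆
      (range (N + 1)).biUnion fun k => (Ioc 0 N).filter (fun n => (k + y).Prime ∧
        ((k + y) ^ 2 ∣ n ∨ (f (k + y) ≠ f₀ (k + y) ∧ (k + y) ∣ n))) := by
    intro n hn
    simp only [Finset.mem_filter, Finset.mem_Ioc] at hn
    obtain ⟨⟨hn0, hnN⟩, hne⟩ := hn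
    have h2 : ¬ ∀ p, p.Prime → y ≤ p → p ∣ n → ¬ p ^ 2 ∣ n ∧ f p = f₀ p := fun h =>
      hne (hyb_agree f f₀ hf1 hf h₀1 h₀ y n hn0 h)
    push Not at h2
    obtain ⟨p, hp, hyp, hpn, h3⟩ := h2
    rw [Finset.mem_biUnion]
    have hpN : p ≤ N := (Nat.le_of_dvd hn0 hpn).trans hnN
    refine ⟨p - y, by rw [Finset.mem_range]; omega, ?_⟩
    have e : p - y + y = p := by omega
    simp only [Finset.mem_filter, Finset.mem_Ioc, e]
    refine ⟨⟨hn0, hnN⟩, hp, ?_⟩
    by_cases h4 : p ^ 2 ∣ n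
    · exact Or.inl h4
    · exact Or.inr ⟨h3 h4, hpn⟩
  have h2 : ∀ k, (((Ioc 0 N).filter (fun n => (k + y).Prime ∧
        ((k + y) ^ 2 ∣ n ∨ (f (k + y) ≠ f₀ (k + y) ∧ (k + y) ∣ n)))).card : ℝ) ≤
      N * ew f f₀ (k + y) := by
    intro k
    set p := k + y with hp
    by_cases hpp : p.Prime
    · by_cases hfp : f p = f₀ p
      · have h3 : ew f f₀ p = 1 / ((p ^ 2 : ℕ) : ℝ) := by
          unfold ew
          rw [if_pos hpp]
          simp [hfp]
        rw [h3]
        refine le_trans ?_ (card_dvd_le (p ^ 2) N)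
        refine Nat.cast_le.mpr (Finset.card_le_card fun n hn => ?_)
        simp only [Finset.mem_filter] at hn ⊢
        refine ⟨hn.1, ?_⟩
        rcases hn.2.2 with h | h
        · exact h
        · exact absurd hfp h.1
      · have h3 : ew f f₀ p = 1 / ((p ^ 2 : ℕ) : ℝ) + 1 / (p : ℝ) := by
          unfold ew
          rw [if_pos hpp]
          simp [hfp]
        rw [h3, mul_add]
        refine le_trans ?_ (add_le_add (card_dvd_le (p ^ 2) N) (card_dvd_le p N))
        rw [← Nat.cast_add]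
        refine Nat.cast_le.mpr ?_
        refine le_trans (Finset.card_le_card fun n hn => ?_) (Finset.card_union_le _ _)
        simp only [Finset.mem_filter, Finset.mem_union] at hn ⊢
        rcases hn.2.2 with h | h
        · exact Or.inl ⟨hn.1, h⟩
        · exact Or.inr ⟨hn.1, h.2⟩
    · have : ((Ioc 0 N).filter (fun n => p.Prime ∧
        (p ^ 2 ∣ n ∨ (f p ≠ f₀ p ∧ p ∣ n)))) = ∅ := by
        apply Finset.filter_false_of_mem
        intro n _ h
        exact hpp h.1
      rw [this]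
      simp only [Finset.card_empty, Nat.cast_zero]
      exact mul_nonneg (Nat.cast_nonneg _) (ew_nonneg f f₀ p)
  have h3 : Summable fun k => ew f f₀ (k + y) := (summable_nat_add_iff y).mpr hs
  calc (((Ioc 0 N).filter (fun n => hyb f f₀ y n ≠ f n)).card : ℝ)
      ≤ (((range (N + 1)).biUnion fun k => (Ioc 0 N).filter (fun n => (k + y).Prime ∧
        ((k + y) ^ 2 ∣ n ∨ (f (k + y) ≠ f₀ (k + y) ∧ (k + y) ∣ n)))).card : ℝ) :=
        Nat.cast_le.mpr (Finset.card_le_card h1)
    _ ≤ ∑ k ∈ range (N + 1), (((Ioc 0 N).filter (fun n => (k + y).Prime ∧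
        ((k + y) ^ 2 ∣ n ∨ (f (k + y) ≠ f₀ (k + y) ∧ (k + y) ∣ n)))).card : ℝ) := by
        rw [← Nat.cast_sum]
        exact Nat.cast_le.mpr Finset.card_biUnion_le
    _ ≤ ∑ k ∈ range (N + 1), N * ew f f₀ (k + y) := Finset.sum_le_sum fun k _ => h2 k
    _ = N * ∑ k ∈ range (N + 1), ew f f₀ (k + y) := by rw [Finset.mul_sum]
    _ ≤ N * ∑' k, ew f f₀ (k + y) := by
        refine mul_le_mul_of_nonneg_left ?_ (Nat.cast_nonneg _)
        exact h3.sum_le_tsum _ fun k _ => ew_nonneg f f₀ _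

open Classical in
omit [Group G] in
lemma cnt_sub_le (F F' : ℕ → G) (a : G) (N : ℕ) :
    |cnt F a N - cnt F' a N| ≤ (((Ioc 0 N).filter (fun n => F n ≠ F' n)).card : ℝ) := by
  unfold cnt
  rw [← Finset.sum_sub_distrib, Finset.card_filter]
  push_cast
  refine (Finset.abs_sum_le_sum_abs _ _).trans ?_
  refine Finset.sum_le_sum fun n _ => ?_
  by_cases h : F n = F' n
  · simp [h]
  · rw [if_pos h]
    split_ifs <;> norm_num

include hf1 hf h₀1 h₀ hcomm in
open Classical in
/-- transfer of densities -/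
theorem dens_transfer
    (hsum : Summable fun p : ℕ => if p.Prime ∧ f p ≠ f₀ p then 1 / (p : ℝ) else 0)
    (hd : HasDens f₀) : HasDens f := by
  intro a
  apply cauchySeq_tendsto_of_complete
  rw [Metric.cauchySeq_iff']
  intro ε hε
  have h1 : Tendsto (fun y => ∑' k, ew f f₀ (k + y)) atTop (𝓝 0) :=
    tendsto_sum_nat_add (ew f f₀)
  obtain ⟨y, hy⟩ := (h1.eventually_lt_const (show 0 < ε / 3 by positivity)).exists
  obtain ⟨d, hdy⟩ := hyb_hasDens f f₀ h₀ hcomm hd y a
  have h2 := hdy.cauchySeq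
  rw [Metric.cauchySeq_iff'] at h2
  obtain ⟨N₀, hN₀⟩ := h2 (ε / 3) (by positivity)
  have h3 : ∀ N : ℕ, |cnt (hyb f f₀ y) a N / N - cnt f a N / N| ≤ ∑' k, ew f f₀ (k + y) := by
    intro N
    have h5 : 0 ≤ ∑' k, ew f f₀ (k + y) := tsum_nonneg fun k => ew_nonneg f f₀ _
    rcases Nat.eq_zero_or_pos N with rfl | hN
    · simpa using h5
    have hN' : (0 : ℝ) < N := by exact_mod_cast hN
    have h4 := (cnt_sub_le (hyb f f₀ y) f a N).trans (bad_le f f₀ hf1 hf h₀1 h₀ hsum y N)
    rw [← sub_div, abs_div, abs_of_pos hN', div_le_iff₀ hN', mul_comm]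
    exact h4
  refine ⟨N₀, fun N hN => ?_⟩
  have h4 := hN₀ N hN
  rw [Real.dist_eq] at h4 ⊢
  have h5 := h3 N
  have h6 := h3 N₀
  rw [abs_le] at h5 h6
  rw [abs_lt] at h4 ⊢
  constructor <;> linarith [h5.1, h5.2, h6.1, h6.2, h4.1, h4.2]

end

end Pool.Agent.H489R2
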