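import Mathlib

set_option autoImplicit false

/-!
# Characters of a discrete abelian group, orthogonality
-/

namespace Pool.Agent.H489R2

open Filter Topology MeasureTheory Complex

/-- `q mod 1 ↦ e^{2πiq}` -/
noncomputable def ratExp : ℚ →+ Additive Circle where
  toFun q := Additive.ofMul (Circle.exp (2 * Real.pi * (q : ℝ)))
  map_zero' := by simp
  map_add' x y := by
    rw [← ofMul_mul, ← Circle.exp_add]
    congr 2
    push_cast
    ring

lemma ratExp_int (k : ℤ) : ratExp (k : ℚ) = 0 := by
  show Additive.ofMul (Circle.exp (2 * Real.pi * ((k : ℚ) : ℝ))) = 0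
  have : Circle.exp (2 * Real.pi * ((k : ℚ) : ℝ)) = 1 := by
    push_cast
    ext
    rw [Circle.coe_exp, Circle.coe_one, Complex.exp_eq_one_iff]
    exact ⟨k, by push_cast; ring⟩
  rw [this]
  rfl

lemma ratExp_eq_zero (q : ℚ) (h : ratExp q = 0) : ∃ k : ℤ, (k : ℚ) = q := by
  have h1 : Circle.exp (2 * Real.pi * (q : ℝ)) = 1 := h
  have h2 := congrArg (fun z : Circle => (z : ℂ)) h1
  simp only [Circle.coe_exp, Circle.coe_one] at h2
  rw [Complex.exp_eq_one_iff] at h2
  obtain ⟨k, hk⟩ := h2
  refine ⟨k, ?_⟩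
  have hpi : (Real.pi : ℂ) ≠ 0 := by exact_mod_cast Real.pi_ne_zero
  have h3 : ((q : ℝ) : ℂ) = (k : ℂ) := by
    have h4 : (2 * Real.pi * I : ℂ) ≠ 0 := by simp [hpi]
    apply mul_left_cancel₀ h4
    have h5 : ((2 * Real.pi * (q : ℝ) : ℝ) : ℂ) * I = (2 * Real.pi * I : ℂ) * ((q : ℝ) : ℂ) := by
      push_cast; ring
    rw [← h5, hk]; ring
  have h6 : (q : ℂ) = ((k : ℚ) : ℂ) := by
    push_cast
    exact_mod_cast h3
  exact_mod_cast h6.symm

/-- `AddCircle (1 : ℚ) → Circle` -/
noncomputable def circExp : AddCircle (1 : ℚ) →+ Additive Circle :=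
  QuotientAddGroup.lift (AddSubgroup.zmultiples (1 : ℚ)) ratExp (by
    intro q hq
    rw [AddSubgroup.mem_zmultiples_iff] at hq
    obtain ⟨k, rfl⟩ := hq
    have := ratExp_int k
    simpa using this)

lemma circExp_eq_zero (x : AddCircle (1 : ℚ)) (h : circExp x = 0) : x = 0 := by
  induction x using QuotientAddGroup.induction_on with
  | H q =>
    have h1 : ratExp q = 0 := h
    obtain ⟨k, rfl⟩ := ratExp_eq_zero q h1
    rw [QuotientAddGroup.eq_zero_iff, AddSubgroup.mem_zmultiples_iff]
    exact ⟨k, by simp⟩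

variable {A : Type*} [CommGroup A] [TopologicalSpace A] [DiscreteTopology A]

/-- characters separate points -/
lemma exists_char (a : A) (ha : a ≠ 1) : ∃ χ : PontryaginDual A, χ a ≠ 1 := by
  have h1 : (Additive.ofMul a) ≠ 0 := fun h => ha h
  obtain ⟨c, hc⟩ := CharacterModule.exists_character_apply_ne_zero_of_ne_zero h1
  let φ : A →* Circle :=
    { toFun := fun x => Additive.toMul (circExp (c (Additive.ofMul x)))
      map_one' := by
        rw [ofMul_one, map_zero, map_zero, toMul_zero]
      map_mul' := fun x y => by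
        rw [ofMul_mul, map_add, map_add, toMul_add] }
  let χ : A →ₜ* Circle := ⟨φ, continuous_of_discreteTopology⟩
  refine ⟨χ, ?_⟩
  intro h
  apply hc
  apply circExp_eq_zero
  exact h

lemma continuous_char (a : A) : Continuous fun χ : PontryaginDual A => χ a := by
  have h1 : Continuous fun χ : A →ₜ* Circle => (χ : C(A, Circle)) :=
    (ContinuousMonoidHom.isClosedEmbedding_toContinuousMap A Circle).continuous
  have h2 : Continuous fun φ : C(A, Circle) => φ a := continuous_eval_const a
  exact h2.comp h1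

lemma continuous_charC (a : A) : Continuous fun χ : PontryaginDual A => ((χ a : Circle) : ℂ) :=
  continuous_subtype_val.comp (continuous_char a)

omit [DiscreteTopology A] in
lemma char_mul (χ : PontryaginDual A) (a b : A) : χ (a * b) = χ a * χ b := map_mul χ a b

omit [DiscreteTopology A] in
lemma char_mul' (χ ψ : PontryaginDual A) (a : A) : (χ * ψ) a = χ a * ψ a := rfl

omit [DiscreteTopology A] in
lemma char_one' (a : A) : (1 : PontryaginDual A) a = 1 := rfl

omit [DiscreteTopology A] in
lemma char_inv' (χ : PontryaginDual A) (a : A) : (χ⁻¹) a = (χ a)⁻¹ := rfl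

section
variable [MeasurableSpace (PontryaginDual A)] [BorelSpace (PontryaginDual A)]

/-- the Haar probability measure on the dual -/
noncomputable def mu : Measure (PontryaginDual A) :=
  Measure.haarMeasure (⊤ : TopologicalSpace.PositiveCompacts (PontryaginDual A))

instance : (mu (A := A)).IsHaarMeasure := by
  unfold mu; infer_instance

lemma mu_univ : mu (A := A) Set.univ = 1 := by
  have := Measure.haarMeasure_self (K₀ := (⊤ : TopologicalSpace.PositiveCompacts (PontryaginDual A)))
  exact this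

instance : IsProbabilityMeasure (mu (A := A)) := ⟨mu_univ⟩

lemma integrable_charC (a : A) (s : Set (PontryaginDual A)) :
    IntegrableOn (fun χ : PontryaginDual A => ((χ a : Circle) : ℂ)) s mu := by
  refine Integrable.integrableOn ?_
  refine Integrable.of_bound (C := 1) (continuous_charC a).aestronglyMeasurable ?_
  exact Eventually.of_forall fun χ => (Circle.norm_coe (χ a)).le

lemma orth (Γ : Subgroup (PontryaginDual A)) (hΓ : MeasurableSet (Γ : Set (PontryaginDual A)))
    (b : A) (h : ∃ χ ∈ Γ, χ b ≠ 1) :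
    ∫ χ in (Γ : Set (PontryaginDual A)), ((χ b : Circle) : ℂ) ∂mu = 0 := by
  obtain ⟨χ₀, hχ₀, hb⟩ := h
  rw [← integral_indicator hΓ]
  set J := ∫ χ, (Γ : Set (PontryaginDual A)).indicator (fun χ => ((χ b : Circle) : ℂ)) χ ∂mu
    with hJ
  have h1 := integral_mul_left_eq_self (μ := mu (A := A))
    (fun χ => (Γ : Set (PontryaginDual A)).indicator (fun χ => ((χ b : Circle) : ℂ)) χ) χ₀
  have h2 : ∀ χ, (Γ : Set (PontryaginDual A)).indicator (fun χ => ((χ b : Circle) : ℂ)) (χ₀ * χ) =
      ((χ₀ b : Circle) : ℂ) *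
        (Γ : Set (PontryaginDual A)).indicator (fun χ => ((χ b : Circle) : ℂ)) χ := by
    intro χ
    by_cases hχ : χ ∈ Γ
    · rw [Set.indicator_of_mem (show χ₀ * χ ∈ (Γ : Set _) from Γ.mul_mem hχ₀ hχ),
        Set.indicator_of_mem (show χ ∈ (Γ : Set _) from hχ), char_mul', Circle.coe_mul]
    · rw [Set.indicator_of_notMem (show χ ∉ (Γ : Set _) from hχ), Set.indicator_of_notMem, mul_zero]
      intro h
      exact hχ ((Γ.mul_mem_cancel_left hχ₀).mp h)
  simp_rw [h2] at h1
  rw [integral_const_mul, ← hJ] at h1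
  have h3 : (((χ₀ b : Circle) : ℂ) - 1) * J = 0 := by rw [sub_mul, h1]; ring
  rcases mul_eq_zero.mp h3 with h4 | h4
  · exfalso
    apply hb
    ext
    rw [Circle.coe_one]
    exact sub_eq_zero.mp h4
  · exact h4

/-- The integral over a subgroup. -/
lemma orth' (Γ : Subgroup (PontryaginDual A)) (hΓ : MeasurableSet (Γ : Set (PontryaginDual A)))
    (b : A) (h : ∀ χ ∈ Γ, χ b = 1) :
    ∫ χ in (Γ : Set (PontryaginDual A)), ((χ b : Circle) : ℂ) ∂mu =
      (mu (A := A)).real (Γ : Set (PontryaginDual A)) := by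
  have : ∀ χ ∈ (Γ : Set (PontryaginDual A)), ((χ b : Circle) : ℂ) = 1 := by
    intro χ hχ
    rw [h χ hχ, Circle.coe_one]
  rw [setIntegral_congr_fun hΓ this, setIntegral_const]
  simp

end

end Pool.Agent.H489R2
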