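import Mathlib
import Pool.Agent.Helper923.PNT

set_option autoImplicit false

/-!
# Qualitative Halász theorem, part A: elementary inequalities
-/

namespace Pool.Agent.H489R2

open Finset Filter Topology
open scoped ArithmeticFunction

/-- partial sums of `g` -/
noncomputable def S (g : ℕ → ℂ) (N : ℕ) : ℂ := ∑ n ∈ Ioc 0 N, g n

/-- partial sums of `g log` -/
noncomputable def T (g : ℕ → ℂ) (N : ℕ) : ℂ := ∑ n ∈ Ioc 0 N, (Real.log n : ℂ) * g n

lemma S_zero (g : ℕ → ℂ) : S g 0 = 0 := by simp [S]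

lemma S_succ (g : ℕ → ℂ) (N : ℕ) : S g (N + 1) = S g N + g (N + 1) := by
  unfold S
  rw [Finset.sum_Ioc_succ_top (Nat.zero_le N)]

lemma norm_S_le (g : ℕ → ℂ) (hg : ∀ n, ‖g n‖ ≤ 1) (N : ℕ) : ‖S g N‖ ≤ N := by
  unfold S
  refine (norm_sum_le _ _).trans ?_
  refine (Finset.sum_le_sum fun n _ => hg n).trans ?_
  simp

lemma sum_log_eq (N : ℕ) : ∑ n ∈ Ioc 0 N, Real.log n = Real.log (N.factorial : ℝ) := by
  induction N with
  | zero => simp
  | succ N ih =>
    rw [Finset.sum_Ioc_succ_top (Nat.zero_le N), ih, Nat.factorial_succ, Nat.cast_mul, Real.log_mul]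
    · ring
    · positivity
    · positivity

/-- `Σ_{n ≤ N} log (N/n) ≤ N` -/
lemma sum_log_le (N : ℕ) : ∑ n ∈ Ioc 0 N, (Real.log N - Real.log n) ≤ N := by
  rcases Nat.eq_zero_or_pos N with rfl | hN
  · simp
  rw [Finset.sum_sub_distrib, sum_log_eq, Finset.sum_const, Nat.card_Ioc, nsmul_eq_mul,
    Nat.sub_zero]
  have h := Real.pow_div_factorial_le_exp (N : ℝ) (by positivity) N
  have hN' : (0 : ℝ) < N := by exact_mod_cast hN
  have h2 := Real.log_le_log (by positivity) h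
  rw [Real.log_exp, Real.log_div (by positivity) (by positivity), Real.log_pow] at h2
  exact h2

/-- `Σ_{n ≤ N} g(n) (log N - log n)` is small -/
lemma norm_S_mul_log_le' (g : ℕ → ℂ) (hg : ∀ n, ‖g n‖ ≤ 1) (N : ℕ) :
    ‖S g N‖ * Real.log N ≤ ‖T g N‖ + N := by
  rcases Nat.eq_zero_or_pos N with rfl | hN
  · simp [T, S]
  have hN' : (1 : ℝ) ≤ N := by exact_mod_cast hN
  have hlog : 0 ≤ Real.log N := Real.log_nonneg hN'
  have h1 : S g N * (Real.log N : ℂ) = T g N + ∑ n ∈ Ioc 0 N, ((Real.log N - Real.log n : ℝ) : ℂ) * g n := by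
    unfold S T
    rw [← Finset.sum_add_distrib, Finset.sum_mul]
    refine Finset.sum_congr rfl fun n _ => ?_
    push_cast
    ring
  have h2 : ‖S g N‖ * Real.log N = ‖S g N * (Real.log N : ℂ)‖ := by
    rw [norm_mul, Complex.norm_real, Real.norm_of_nonneg hlog]
  rw [h2, h1]
  refine (norm_add_le _ _).trans ?_
  gcongr
  refine (norm_sum_le _ _).trans ?_
  refine le_trans ?_ (sum_log_le N)
  refine Finset.sum_le_sum fun n hn => ?_
  have hn1 := (Finset.mem_Ioc.mp hn).1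
  have hn2 := (Finset.mem_Ioc.mp hn).2
  have h3 : 0 ≤ Real.log N - Real.log n :=
    sub_nonneg.mpr (Real.log_le_log (by exact_mod_cast hn1) (by exact_mod_cast hn2))
  rw [norm_mul, Complex.norm_real, Real.norm_of_nonneg h3]
  exact mul_le_of_le_one_right h3 (hg n)

/-- the convolution identity `(Λ g) * g = g log` -/
lemma T_eq (g : ℕ →*₀ ℂ) (N : ℕ) :
    T g N = ∑ d ∈ Ioc 0 N, ((ArithmeticFunction.vonMangoldt d : ℂ) * g d) * S g (N / d) := by
  let G : ArithmeticFunction ℂ := ⟨fun n => g n, map_zero g⟩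
  let L : ArithmeticFunction ℂ := ⟨fun n => (ArithmeticFunction.vonMangoldt n : ℂ) * g n, by simp⟩
  have h1 := ArithmeticFunction.sum_Ioc_mul_eq_sum_sum L G N
  have h2 : ∀ n, (L * G) n = (Real.log n : ℂ) * g n := by
    intro n
    rw [ArithmeticFunction.mul_apply]
    have h3 : ∀ x ∈ n.divisorsAntidiagonal, L x.1 * G x.2 =
        (ArithmeticFunction.vonMangoldt x.1 : ℂ) * g n := by
      intro x hx
      have h4 := (Nat.mem_divisorsAntidiagonal.mp hx).1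
      show (ArithmeticFunction.vonMangoldt x.1 : ℂ) * g x.1 * g x.2 = _
      rw [mul_assoc, ← map_mul, h4]
    rw [Finset.sum_congr rfl h3, ← Finset.sum_mul]
    congr 1
    have h5 := ArithmeticFunction.vonMangoldt_sum (n := n)
    rw [← h5]
    push_cast
    exact Nat.sum_divisorsAntidiagonal (n := n) (f := fun i _ => (ArithmeticFunction.vonMangoldt i : ℂ))
  unfold T S
  rw [Finset.sum_congr rfl fun n _ => (h2 n).symm]
  exact h1

lemma norm_S_mul_log_le (g : ℕ →*₀ ℂ) (hg : ∀ n, ‖g n‖ ≤ 1) (N : ℕ) :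
    ‖S g N‖ * Real.log N ≤
      N + ∑ d ∈ Ioc 0 N, ArithmeticFunction.vonMangoldt d * ‖S g (N / d)‖ := by
  have h1 := norm_S_mul_log_le' g hg N
  have h2 : ‖T g N‖ ≤ ∑ d ∈ Ioc 0 N, ArithmeticFunction.vonMangoldt d * ‖S g (N / d)‖ := by
    rw [T_eq]
    refine (norm_sum_le _ _).trans ?_
    refine Finset.sum_le_sum fun d _ => ?_
    rw [norm_mul, norm_mul, Complex.norm_real,
      Real.norm_of_nonneg ArithmeticFunction.vonMangoldt_nonneg]
    apply mul_le_mul_of_nonneg_right _ (norm_nonneg _)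
    exact mul_le_of_le_one_right ArithmeticFunction.vonMangoldt_nonneg (hg d)
  linarith

/-! ### Comparison of `Σ Λ(d) |S(N/d)|` with an integral -/

/-- increments of `|S|` -/
noncomputable def b (g : ℕ → ℂ) (n : ℕ) : ℝ := ‖S g n‖ - ‖S g (n - 1)‖

lemma abs_b_le (g : ℕ → ℂ) (hg : ∀ n, ‖g n‖ ≤ 1) (n : ℕ) : |b g n| ≤ 1 := by
  rcases n with _ | n
  · simp [b]
  · unfold b
    rw [Nat.add_sub_cancel, S_succ]
    refine (abs_norm_sub_norm_le _ _).trans ?_
    rw [add_sub_cancel_left]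
    exact hg _

lemma sum_b (g : ℕ → ℂ) (m : ℕ) : ∑ n ∈ Ioc 0 m, b g n = ‖S g m‖ := by
  induction m with
  | zero => simp [S_zero]
  | succ m ih =>
    rw [Finset.sum_Ioc_succ_top (Nat.zero_le m), ih]
    unfold b
    rw [Nat.add_sub_cancel]
    ring

lemma psi_eq (m : ℕ) : Chebyshev.psi (m : ℝ) = ∑ d ∈ Ioc 0 m, ArithmeticFunction.vonMangoldt d := by
  unfold Chebyshev.psi
  rw [Nat.floor_natCast]

lemma sum_vonMangoldt_eq (g : ℕ → ℂ) (N : ℕ) :
    ∑ d ∈ Ioc 0 N, ArithmeticFunction.vonMangoldt d * ‖S g (N / d)‖ =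
      ∑ n ∈ Ioc 0 N, b g n * Chebyshev.psi ((N / n : ℕ) : ℝ) := by
  let B : ArithmeticFunction ℝ := ⟨fun n => b g n, by simp [b]⟩
  let L : ArithmeticFunction ℝ := ArithmeticFunction.vonMangoldt
  have h1 := ArithmeticFunction.sum_Ioc_mul_eq_sum_sum L B N
  have h2 := ArithmeticFunction.sum_Ioc_mul_eq_sum_sum B L N
  rw [mul_comm] at h1
  have h3 : ∀ d, (∑ m ∈ Ioc 0 (N / d), B m) = ‖S g (N / d)‖ := fun d => sum_b g (N / d)
  have h4 : ∀ n, (∑ m ∈ Ioc 0 (N / n), L m) = Chebyshev.psi ((N / n : ℕ) : ℝ) :=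
    fun n => (psi_eq _).symm
  simp only [h3] at h1
  simp only [h4] at h2
  rw [← h1, h2]
  rfl

/-- Summation by parts: `Σ_{n ≤ N} b_n / n = Σ_{n ≤ N} |S(n)| (1/n - 1/(n+1)) + |S(N)|/(N+1)`. -/
lemma sum_b_div (g : ℕ → ℂ) (N : ℕ) :
    ∑ n ∈ Ioc 0 N, b g n / n =
      ∑ n ∈ Ioc 0 N, ‖S g n‖ * (1 / (n : ℝ) - 1 / ((n : ℝ) + 1)) + ‖S g N‖ / ((N : ℝ) + 1) := by
  induction N with
  | zero => simp [S_zero]
  | succ N ih =>
    rw [Finset.sum_Ioc_succ_top (Nat.zero_le N), ih, Finset.sum_Ioc_succ_top (Nat.zero_le N)]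
    unfold b
    rw [Nat.add_sub_cancel]
    push_cast
    ring

/-- From the prime number theorem: `|ψ(⌊x⌋) - x| ≤ ε x + C`. -/
lemma psi_approx (ε : ℝ) (hε : 0 < ε) : ∃ C : ℝ, 0 ≤ C ∧ ∀ N n : ℕ, 0 < n →
    |Chebyshev.psi ((N / n : ℕ) : ℝ) - (N : ℝ) / n| ≤ ε * ((N : ℝ) / n) + C := by
  have h := Pool.Agent.Helper923.PNT.psi_div_tendsto
  rw [Metric.tendsto_atTop] at h
  obtain ⟨X, hX⟩ := h ε hε
  set Y := max X 1 with hY
  refine ⟨(Real.log 4 + 4) * Y + Y, by positivity, ?_⟩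
  intro N n hn
  have hn' : (0 : ℝ) < n := by exact_mod_cast hn
  set x : ℝ := (N : ℝ) / n with hx
  have hx0 : 0 ≤ x := by positivity
  have hfl : ⌊x⌋₊ = N / n := by
    rw [hx, Nat.floor_div_natCast, Nat.floor_natCast]
  have hpsi : Chebyshev.psi ((N / n : ℕ) : ℝ) = Chebyshev.psi x := by
    rw [← hfl, ← Chebyshev.psi_eq_psi_coe_floor]
  rw [hpsi]
  by_cases hxY : Y ≤ x
  · have hx1 : 0 < x := by
      have : (1 : ℝ) ≤ Y := le_max_right _ _
      linarith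
    have h2 := hX x ((le_max_left _ _).trans hxY)
    rw [Real.dist_eq] at h2
    have h3 : |Chebyshev.psi x - x| = |Chebyshev.psi x / x - 1| * x := by
      rw [← abs_of_pos hx1, ← abs_mul, abs_of_pos hx1]
      congr 1
      field_simp
    rw [h3]
    have h4 : |Chebyshev.psi x / x - 1| * x ≤ ε * x := mul_le_mul_of_nonneg_right h2.le hx0
    have h5 : 0 ≤ (Real.log 4 + 4) * Y + Y := by positivity
    linarith
  · push Not at hxY
    have h2 := Chebyshev.psi_le_const_mul_self hx0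
    have h3 := Chebyshev.psi_nonneg x
    have h4 : |Chebyshev.psi x - x| ≤ Chebyshev.psi x + x := by
      rw [abs_le]; constructor <;> linarith
    have h5 : (Real.log 4 + 4) * x ≤ (Real.log 4 + 4) * Y :=
      mul_le_mul_of_nonneg_left hxY.le (by positivity)
    have h6 : 0 ≤ ε * x := by positivity
    linarith

lemma sum_inv_le (N : ℕ) (_hN : 0 < N) : ∑ n ∈ Ioc 0 N, (1 : ℝ) / n ≤ 1 + Real.log N := by
  have h := harmonic_le_one_add_log N
  rw [harmonic_eq_sum_Icc] at h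
  push_cast at h
  refine le_trans (le_of_eq ?_) h
  refine Finset.sum_congr ?_ fun n _ => by rw [one_div]
  ext n
  simp [Finset.mem_Ioc, Finset.mem_Icc, Nat.lt_iff_add_one_le]

/-- **The key inequality.** -/
lemma key_ineq (g : ℕ →*₀ ℂ) (hg : ∀ n, ‖g n‖ ≤ 1) (ε : ℝ) (hε : 0 < ε) :
    ∃ C : ℝ, 0 ≤ C ∧ ∀ N : ℕ, 0 < N →
      ‖S g N‖ / N * Real.log N ≤
        ∑ n ∈ Ioc 0 N, ‖S g n‖ * (1 / (n : ℝ) - 1 / ((n : ℝ) + 1)) + ε * Real.log N + C := by
  obtain ⟨C, hC0, hC⟩ := psi_approx ε hε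
  refine ⟨2 + ε + C, by positivity, ?_⟩
  intro N hN
  have hN' : (0 : ℝ) < N := by exact_mod_cast hN
  have h1 := norm_S_mul_log_le g hg N
  rw [sum_vonMangoldt_eq] at h1
  have h2 : ∑ n ∈ Ioc 0 N, b g n * Chebyshev.psi ((N / n : ℕ) : ℝ) ≤
      N * (∑ n ∈ Ioc 0 N, b g n / n) + (ε * N * (1 + Real.log N) + C * N) := by
    have h3 : ∀ n ∈ Ioc 0 N, b g n * Chebyshev.psi ((N / n : ℕ) : ℝ) ≤
        N * (b g n / n) + (ε * N * (1 / n) + C) := by
      intro n hn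
      have hn0 := (Finset.mem_Ioc.mp hn).1
      have h4 := hC N n hn0
      have h5 := abs_b_le g hg n
      have h6 : b g n * (Chebyshev.psi ((N / n : ℕ) : ℝ) - (N : ℝ) / n) ≤
          ε * ((N : ℝ) / n) + C := by
        refine (le_abs_self _).trans ?_
        rw [abs_mul]
        calc |b g n| * |Chebyshev.psi ((N / n : ℕ) : ℝ) - (N : ℝ) / n|
            ≤ 1 * |Chebyshev.psi ((N / n : ℕ) : ℝ) - (N : ℝ) / n| :=
              mul_le_mul_of_nonneg_right h5 (abs_nonneg _)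
          _ ≤ _ := by rw [one_mul]; exact h4
      have h7 : b g n * (Chebyshev.psi ((N / n : ℕ) : ℝ) - (N : ℝ) / n) =
          b g n * Chebyshev.psi ((N / n : ℕ) : ℝ) - N * (b g n / n) := by ring
      have h8 : ε * ((N : ℝ) / n) = ε * N * (1 / n) := by ring
      rw [h7, h8] at h6
      linarith
    refine (Finset.sum_le_sum h3).trans ?_
    rw [Finset.sum_add_distrib, ← Finset.mul_sum, Finset.sum_add_distrib, ← Finset.mul_sum,
      Finset.sum_const, Nat.card_Ioc, Nat.sub_zero, nsmul_eq_mul]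
    have h9 := sum_inv_le N hN
    have h10 : ε * N * ∑ n ∈ Ioc 0 N, (1 : ℝ) / n ≤ ε * N * (1 + Real.log N) :=
      mul_le_mul_of_nonneg_left h9 (by positivity)
    linarith
  rw [sum_b_div] at h2
  have h3 := norm_S_le g hg N
  have h4 : ‖S g N‖ / ((N : ℝ) + 1) ≤ 1 := by
    rw [div_le_one (by positivity)]; linarith
  set W := ∑ n ∈ Ioc 0 N, ‖S g n‖ * (1 / (n : ℝ) - 1 / ((n : ℝ) + 1)) with hW
  have h5 : ‖S g N‖ * Real.log N ≤ N * (W + ε * Real.log N + (2 + ε + C)) := by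
    have h6 : (N : ℝ) * (‖S g N‖ / ((N : ℝ) + 1)) ≤ N * 1 := mul_le_mul_of_nonneg_left h4 hN'.le
    nlinarith
  rw [div_mul_eq_mul_div, div_le_iff₀ hN']
  linarith

end Pool.Agent.H489R2
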