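import Mathlib
import Pool.Agent.Helper76.HPlanch

set_option autoImplicit false

/-!
# Qualitative Halász theorem, part B: Plancherel for smoothed sums
-/

namespace Pool.Agent.H489R2

open Finset Filter Topology MeasureTheory Complex FourierTransform
open scoped ENNReal

/-- one-sided exponential kernel -/
noncomputable def kk (X w : ℝ) : ℂ := (Set.Ici (0 : ℝ)).indicator (fun w => cexp (-(X * w))) w

lemma kk_shift (X t : ℝ) : (fun v : ℝ => kk X (v - t)) =
    (Set.Ici t).indicator (fun v => cexp (X * t) * cexp (-X * v)) := by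
  ext v
  unfold kk
  by_cases h : t ≤ v
  · rw [Set.indicator_of_mem (by simpa using h), Set.indicator_of_mem (by simpa using h),
      ← Complex.exp_add]
    congr 1
    push_cast
    ring
  · rw [Set.indicator_of_notMem (by simpa using h), Set.indicator_of_notMem (by simpa using h)]

lemma integrable_kk (X t : ℝ) (hX : 0 < X) : Integrable (fun v : ℝ => kk X (v - t)) := by
  rw [kk_shift, integrable_indicator_iff measurableSet_Ici, integrableOn_Ici_iff_integrableOn_Ioi]
  exact (integrableOn_exp_mul_complex_Ioi (a := -X) (by simpa using hX) t).const_mul _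

lemma kk_fourier (X t ξ : ℝ) (hX : 0 < X) :
    ∫ v : ℝ, cexp (↑(-2 * Real.pi * v * ξ) * I) * kk X (v - t) =
      cexp (↑(-2 * Real.pi * t * ξ) * I) / (X + 2 * Real.pi * ξ * I) := by
  have h0 : (X + 2 * Real.pi * ξ * I : ℂ) ≠ 0 := by
    intro h
    have := congrArg Complex.re h
    simp at this
    linarith
  have h1 : (fun v : ℝ => cexp (↑(-2 * Real.pi * v * ξ) * I) * kk X (v - t)) =
      (Set.Ici t).indicator (fun v => cexp (X * t) * cexp (-(X + 2 * Real.pi * ξ * I) * v)) := by
    have h2 := kk_shift X t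
    ext v
    have h3 : kk X (v - t) = _ := congrFun h2 v
    rw [h3]
    by_cases h : t ≤ v
    · rw [Set.indicator_of_mem (by simpa using h), Set.indicator_of_mem (by simpa using h),
        ← Complex.exp_add, ← Complex.exp_add, ← Complex.exp_add]
      congr 1
      push_cast
      ring
    · rw [Set.indicator_of_notMem (by simpa using h), Set.indicator_of_notMem (by simpa using h),
        mul_zero]
  rw [h1, integral_indicator measurableSet_Ici, integral_Ici_eq_integral_Ioi,
    integral_const_mul, integral_exp_mul_complex_Ioi (by simpa using hX)]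
  rw [neg_div_neg_eq, mul_div_assoc', ← Complex.exp_add]
  congr 2
  push_cast
  ring

lemma norm_kk_integral (X t : ℝ) (hX : 0 < X) : ∫ v : ℝ, ‖kk X (v - t)‖ = 1 / X := by
  have h1 : (fun v : ℝ => ‖kk X (v - t)‖) =
      (Set.Ici t).indicator (fun v => Real.exp (X * t) * Real.exp (-X * v)) := by
    have h2 := kk_shift X t
    ext v
    have h3 : kk X (v - t) = _ := congrFun h2 v
    rw [h3]
    by_cases h : t ≤ v
    · rw [Set.indicator_of_mem (by simpa using h), Set.indicator_of_mem (by simpa using h)]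
      rw [norm_mul, Complex.norm_exp, Complex.norm_exp]
      simp
    · rw [Set.indicator_of_notMem (by simpa using h), Set.indicator_of_notMem (by simpa using h),
        norm_zero]
  rw [h1, integral_indicator measurableSet_Ici, integral_Ici_eq_integral_Ioi,
    integral_const_mul, integral_exp_mul_Ioi (by simpa using hX)]
  have : Real.exp (X * t) * (-Real.exp (-X * t) / -X) =
      (Real.exp (X * t) * Real.exp (-X * t)) / X := by
    rw [neg_div_neg_eq]; ring
  rw [this, ← Real.exp_add]
  simp

lemma norm_kk_le (X w : ℝ) (hX : 0 < X) : ‖kk X w‖ ≤ 1 := by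
  unfold kk
  by_cases h : 0 ≤ w
  · rw [Set.indicator_of_mem (by simpa using h), Complex.norm_exp]
    simp only [neg_re, mul_re, ofReal_re, ofReal_im, mul_zero, sub_zero]
    rw [Real.exp_le_one_iff]
    have : 0 ≤ X * w := mul_nonneg hX.le h
    linarith
  · rw [Set.indicator_of_notMem (by simpa using h), norm_zero]
    exact zero_le_one

/-- the coefficients `a(n) n^{-σ}` -/
noncomputable def cc (a : ℕ → ℂ) (σ : ℝ) (n : ℕ) : ℂ := LSeries.term a σ n

/-- the function `F(v) = Σ_{log n ≤ v} a(n) n^{-σ} e^{-X (v - log n)}` -/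
noncomputable def FF (a : ℕ → ℂ) (σ X v : ℝ) : ℂ := ∑' n : ℕ, cc a σ n * kk X (v - Real.log n)

section
variable (a : ℕ → ℂ) (σ X : ℝ) (hX : 0 < X) (hs : Summable fun n => ‖cc a σ n‖)
include hX hs

lemma summable_FF (v : ℝ) : Summable fun n : ℕ => cc a σ n * kk X (v - Real.log n) := by
  refine Summable.of_norm_bounded hs fun n => ?_
  rw [norm_mul]
  exact mul_le_of_le_one_right (norm_nonneg _) (norm_kk_le _ _ hX)

lemma norm_FF_le (v : ℝ) : ‖FF a σ X v‖ ≤ ∑' n, ‖cc a σ n‖ := by
  unfold FF
  refine tsum_of_norm_bounded hs.hasSum fun n => ?_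
  rw [norm_mul]
  exact mul_le_of_le_one_right (norm_nonneg _) (norm_kk_le _ _ hX)

omit hs in
lemma integrable_term (n : ℕ) : Integrable (fun v : ℝ => cc a σ n * kk X (v - Real.log n)) :=
  (integrable_kk X _ hX).const_mul _

lemma summable_integral_norm :
    Summable fun n : ℕ => ∫ v : ℝ, ‖cc a σ n * kk X (v - Real.log n)‖ := by
  have : (fun n : ℕ => ∫ v : ℝ, ‖cc a σ n * kk X (v - Real.log n)‖) =
      fun n => ‖cc a σ n‖ * (1 / X) := by
    ext n
    simp only [norm_mul]
    rw [integral_const_mul, norm_kk_integral X _ hX]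
  rw [this]
  exact hs.mul_right _

lemma integrable_FF : Integrable (FF a σ X) := by
  refine ⟨?_, ?_⟩
  · exact AEStronglyMeasurable.tsum (fun n => (integrable_term a σ X hX n).1)
  · rw [HasFiniteIntegral]
    have h1 : ∫⁻ v, ‖FF a σ X v‖ₑ ≤ ∑' n : ℕ, ∫⁻ v : ℝ, ‖cc a σ n * kk X (v - Real.log n)‖ₑ := by
      rw [← lintegral_tsum fun n => (integrable_term a σ X hX n).1.enorm]
      refine lintegral_mono fun v => ?_
      exact enorm_tsum_le_tsum_enorm
    refine h1.trans_lt ?_
    have h2 : ∀ n : ℕ, ∫⁻ v : ℝ, ‖cc a σ n * kk X (v - Real.log n)‖ₑ =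
        ENNReal.ofReal (∫ v : ℝ, ‖cc a σ n * kk X (v - Real.log n)‖) := by
      intro n
      rw [ofReal_integral_norm_eq_lintegral_enorm (integrable_term a σ X hX n)]
    rw [tsum_congr h2, ← ENNReal.ofReal_tsum_of_nonneg
      (fun n => integral_nonneg fun v => norm_nonneg _) (summable_integral_norm a σ X hX hs)]
    exact ENNReal.ofReal_lt_top

lemma fourier_FF (ξ : ℝ) :
    𝓕 (FF a σ X) ξ = LSeries a (σ + 2 * Real.pi * ξ * I) / (X + 2 * Real.pi * ξ * I) := by
  rw [Real.fourier_real_eq_integral_exp_smul]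
  have h1 : ∀ v : ℝ, cexp (↑(-2 * Real.pi * v * ξ) * I) • FF a σ X v =
      ∑' n : ℕ, cexp (↑(-2 * Real.pi * v * ξ) * I) * (cc a σ n * kk X (v - Real.log n)) := by
    intro v
    unfold FF
    rw [smul_eq_mul, tsum_mul_left]
  simp_rw [h1]
  have hn : ∀ (n : ℕ) (v : ℝ), ‖cexp (↑(-2 * Real.pi * v * ξ) * I) *
      (cc a σ n * kk X (v - Real.log n))‖ = ‖cc a σ n * kk X (v - Real.log n)‖ := by
    intro n v
    rw [norm_mul, Complex.norm_exp_ofReal_mul_I, one_mul]
  have hint : ∀ n : ℕ, Integrable (fun v : ℝ => cexp (↑(-2 * Real.pi * v * ξ) * I) *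
      (cc a σ n * kk X (v - Real.log n))) := by
    intro n
    refine (integrable_term a σ X hX n).mono ?_ (Eventually.of_forall fun v => (hn n v).le)
    refine AEStronglyMeasurable.mul ?_ (integrable_term a σ X hX n).1
    apply Continuous.aestronglyMeasurable
    fun_prop
  rw [← integral_tsum_of_summable_integral_norm hint]
  · have h2 : ∀ n : ℕ, ∫ v : ℝ, cexp (↑(-2 * Real.pi * v * ξ) * I) *
        (cc a σ n * kk X (v - Real.log n)) =
        LSeries.term a (σ + 2 * Real.pi * ξ * I) n / (X + 2 * Real.pi * ξ * I) := by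
      intro n
      have h3 : ∀ v : ℝ, cexp (↑(-2 * Real.pi * v * ξ) * I) *
          (cc a σ n * kk X (v - Real.log n)) =
          cc a σ n * (cexp (↑(-2 * Real.pi * v * ξ) * I) * kk X (v - Real.log n)) := by
        intro v; ring
      simp_rw [h3]
      rw [integral_const_mul, kk_fourier X _ ξ hX, mul_div_assoc']
      congr 1
      unfold cc
      rcases Nat.eq_zero_or_pos n with rfl | hn
      · simp
      · rw [LSeries.term_of_ne_zero hn.ne', LSeries.term_of_ne_zero hn.ne', div_mul_eq_mul_div,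
          div_eq_div_iff]
        · have hnc : (n : ℂ) ≠ 0 := by exact_mod_cast hn.ne'
          rw [Complex.cpow_add _ _ hnc, mul_assoc]
          congr 1
          have h5 : cexp (↑(-2 * Real.pi * Real.log n * ξ) * I) * (n : ℂ) ^ (2 * Real.pi * ξ * I : ℂ)
              = 1 := by
            rw [Complex.cpow_def_of_ne_zero hnc, ← Complex.natCast_log, ← Complex.exp_add]
            rw [Complex.exp_eq_one_iff]
            refine ⟨0, ?_⟩
            push_cast
            ring
          rw [mul_comm ((n : ℂ) ^ (σ : ℂ)), ← mul_assoc, h5, one_mul]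
        · exact Complex.cpow_ne_zero_iff.mpr (Or.inl (by exact_mod_cast hn.ne'))
        · exact Complex.cpow_ne_zero_iff.mpr (Or.inl (by exact_mod_cast hn.ne'))
    simp_rw [h2]
    rw [tsum_div_const]
    rfl
  · simp_rw [hn]
    exact summable_integral_norm a σ X hX hs

lemma memLp_FF : MemLp (FF a σ X) 2 := by
  have h1 := integrable_FF a σ X hX hs
  rw [memLp_two_iff_integrable_sq_norm h1.1]
  refine (h1.norm.const_mul (∑' n, ‖cc a σ n‖)).mono (h1.1.norm.pow 2)
    (Eventually.of_forall fun v => ?_)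
  have h2 := norm_FF_le a σ X hX hs v
  have h3 : 0 ≤ ∑' n, ‖cc a σ n‖ := tsum_nonneg fun n => norm_nonneg _
  rw [Real.norm_of_nonneg (by positivity), Real.norm_of_nonneg (by positivity), sq]
  exact mul_le_mul_of_nonneg_right h2 (norm_nonneg _)

lemma plancherel_FF :
    ∫⁻ ξ : ℝ, ‖LSeries a (σ + 2 * Real.pi * ξ * I) / (X + 2 * Real.pi * ξ * I)‖ₑ ^ 2 =
      ∫⁻ v : ℝ, ‖FF a σ X v‖ₑ ^ 2 := by
  rw [← Pool.Agent.Helper76.NormalHP.plancherel_lintegral (FF a σ X) (integrable_FF a σ X hX hs)
    (memLp_FF a σ X hX hs)]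
  refine lintegral_congr fun ξ => ?_
  rw [fourier_FF a σ X hX hs ξ]

end

end Pool.Agent.H489R2
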