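import Mathlib
import Pool.Agent.H489R2.HalA
import Pool.Agent.H489R2.HalB

set_option autoImplicit false

/-!
# Qualitative Halász theorem, part C: time side bounds
-/

namespace Pool.Agent.H489R2

open Finset Filter Topology MeasureTheory Complex
open scoped ENNReal ArithmeticFunction

lemma cc_norm (a : ℕ → ℂ) (σ : ℝ) (n : ℕ) (hn : 0 < n) :
    ‖cc a σ n‖ = ‖a n‖ * Real.exp (-(σ * Real.log n)) := by
  unfold cc
  have hn' : (0 : ℝ) < n := by exact_mod_cast hn
  rw [LSeries.term_of_ne_zero hn.ne', norm_div, Complex.norm_natCast_cpow_of_pos hn,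
    Complex.ofReal_re, div_eq_mul_inv, Real.exp_neg, Real.rpow_def_of_pos hn', mul_comm σ]

lemma FF_eq_sum (a : ℕ → ℂ) (σ X v : ℝ) :
    FF a σ X v = ∑ n ∈ Ioc 0 ⌊Real.exp v⌋₊, cc a σ n * cexp (-(X * (v - Real.log n))) := by
  unfold FF
  rw [tsum_eq_sum (s := Ioc 0 ⌊Real.exp v⌋₊)]
  · refine Finset.sum_congr rfl fun n hn => ?_
    rw [Finset.mem_Ioc] at hn
    congr 1
    unfold kk
    have hn' : (0 : ℝ) < n := by exact_mod_cast hn.1
    have h1 : (n : ℝ) ≤ Real.exp v := (Nat.le_floor_iff (Real.exp_pos v).le).mp hn.2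
    have h2 : Real.log n ≤ v := (Real.log_le_iff_le_exp hn').mpr h1
    rw [Set.indicator_of_mem (by simpa using h2)]
    push_cast
    rfl
  · intro n hn
    rcases Nat.eq_zero_or_pos n with rfl | hn0
    · unfold cc; simp
    · have h1 : ¬ n ≤ ⌊Real.exp v⌋₊ := fun h => hn (Finset.mem_Ioc.mpr ⟨hn0, h⟩)
      rw [Nat.le_floor_iff (Real.exp_pos v).le] at h1
      push Not at h1
      have hn' : (0 : ℝ) < n := by exact_mod_cast hn0
      have h2 : v < Real.log n := (Real.lt_log_iff_exp_lt hn').mpr h1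
      unfold kk
      rw [Set.indicator_of_notMem (by simpa using h2), mul_zero]

lemma FF_self (a : ℕ → ℂ) (σ v : ℝ) :
    FF a σ σ v = cexp (-(σ * v)) * ∑ n ∈ Ioc 0 ⌊Real.exp v⌋₊, a n := by
  rw [FF_eq_sum, Finset.mul_sum]
  refine Finset.sum_congr rfl fun n hn => ?_
  have hn0 := (Finset.mem_Ioc.mp hn).1
  unfold cc
  have hnc : (n : ℂ) ≠ 0 := by exact_mod_cast hn0.ne'
  rw [LSeries.term_of_ne_zero hn0.ne', Complex.cpow_def_of_ne_zero hnc, ← Complex.natCast_log,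
    div_mul_eq_mul_div, mul_div_assoc, ← Complex.exp_sub, mul_comm]
  congr 2
  ring

lemma FF_neg (a : ℕ → ℂ) (σ X v : ℝ) (hv : v < 0) : FF a σ X v = 0 := by
  rw [FF_eq_sum]
  have : ⌊Real.exp v⌋₊ = 0 := by
    rw [Nat.floor_eq_zero]
    rw [← Real.exp_zero]
    exact Real.exp_lt_exp.mpr hv
  rw [this]
  simp

lemma norm_FF_le_sum (a : ℕ → ℂ) (w : ℕ → ℝ) (hw : ∀ n, ‖a n‖ ≤ w n) (σ X v : ℝ) :
    ‖FF a σ X v‖ ≤ ∑ n ∈ Ioc 0 ⌊Real.exp v⌋₊,
      w n * Real.exp (-(σ * Real.log n) - X * (v - Real.log n)) := by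
  rw [FF_eq_sum]
  refine (norm_sum_le _ _).trans ?_
  refine Finset.sum_le_sum fun n hn => ?_
  have hn0 := (Finset.mem_Ioc.mp hn).1
  rw [norm_mul, cc_norm a σ n hn0, Complex.norm_exp]
  have h1 : (-(X * (v - Real.log n)) : ℂ).re = -(X * (v - Real.log n)) := by
    have : (-(X * (v - Real.log n)) : ℂ) = ((-(X * (v - Real.log n)) : ℝ) : ℂ) := by push_cast; ring
    rw [this, Complex.ofReal_re]
  rw [h1, mul_assoc, ← Real.exp_add]
  have h2 : -(σ * Real.log n) + -(X * (v - Real.log n)) =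
      -(σ * Real.log n) - X * (v - Real.log n) := by ring
  rw [h2]
  exact mul_le_mul_of_nonneg_right (hw n) (Real.exp_pos _).le

/-- Chebyshev's constant -/
noncomputable def Cψ : ℝ := Real.log 4 + 4

lemma Cψ_pos : 0 < Cψ := by unfold Cψ; positivity

lemma psi_le (x : ℝ) (hx : 0 ≤ x) : Chebyshev.psi x ≤ Cψ * x := Chebyshev.psi_le_const_mul_self hx

/-- sum over an initial segment -/
lemma sum_le_psi (x : ℝ) :
    ∑ n ∈ Ioc 0 ⌊x⌋₊, ArithmeticFunction.vonMangoldt n = Chebyshev.psi x := rfl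

/-- crude time side bound -/
lemma FF_crude (a : ℕ → ℂ) (ha : ∀ n, ‖a n‖ ≤ ArithmeticFunction.vonMangoldt n)
    (σ X v : ℝ) (hX : σ ≤ X) : ‖FF a σ X v‖ ≤ Cψ * Real.exp (-((σ - 1) * v)) := by
  refine (norm_FF_le_sum a _ ha σ X v).trans ?_
  have h1 : ∀ n ∈ Ioc 0 ⌊Real.exp v⌋₊, ArithmeticFunction.vonMangoldt n *
      Real.exp (-(σ * Real.log n) - X * (v - Real.log n)) ≤
      ArithmeticFunction.vonMangoldt n * Real.exp (-(σ * v)) := by
    intro n hn
    rw [Finset.mem_Ioc] at hn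
    have hn' : (0 : ℝ) < n := by exact_mod_cast hn.1
    have h1 : (n : ℝ) ≤ Real.exp v := (Nat.le_floor_iff (Real.exp_pos v).le).mp hn.2
    have h2 : Real.log n ≤ v := (Real.log_le_iff_le_exp hn').mpr h1
    apply mul_le_mul_of_nonneg_left _ ArithmeticFunction.vonMangoldt_nonneg
    apply Real.exp_le_exp.mpr
    nlinarith
  refine (Finset.sum_le_sum h1).trans ?_
  rw [← Finset.sum_mul, sum_le_psi]
  calc Chebyshev.psi (Real.exp v) * Real.exp (-(σ * v))
      ≤ (Cψ * Real.exp v) * Real.exp (-(σ * v)) :=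
        mul_le_mul_of_nonneg_right (psi_le _ (Real.exp_pos v).le) (Real.exp_pos _).le
    _ = Cψ * Real.exp (-((σ - 1) * v)) := by
        rw [mul_assoc, ← Real.exp_add]; congr 2; ring

/-- PNT in short multiplicative intervals -/
lemma psi_short (δ ε : ℝ) (hδ : 0 ≤ δ) (hε : 0 < ε) : ∃ v₀ : ℝ, 0 ≤ v₀ ∧ ∀ v : ℝ, v₀ ≤ v →
    Chebyshev.psi (Real.exp v) - Chebyshev.psi (Real.exp (v - δ)) ≤ (δ + 2 * ε) * Real.exp v := by
  have h := Pool.Agent.Helper923.PNT.psi_div_tendsto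
  rw [Metric.tendsto_atTop] at h
  obtain ⟨Y, hY⟩ := h ε hε
  refine ⟨max (Real.log (max Y 1) + δ) 0, le_max_right _ _, ?_⟩
  intro v hv
  have hY1 : (0 : ℝ) < max Y 1 := lt_of_lt_of_le one_pos (le_max_right _ _)
  have h1 : Real.log (max Y 1) ≤ v - δ := by
    have := (le_max_left (Real.log (max Y 1) + δ) 0).trans hv
    linarith
  have h2 : Y ≤ Real.exp (v - δ) :=
    (le_max_left Y 1).trans ((Real.log_le_iff_le_exp hY1).mp h1)
  have h3 : Y ≤ Real.exp v := h2.trans (Real.exp_le_exp.mpr (by linarith))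
  have key : ∀ y : ℝ, 0 < y → Y ≤ y → |Chebyshev.psi y - y| ≤ ε * y := by
    intro y hy hYy
    have h4 := hY y hYy
    rw [Real.dist_eq] at h4
    have h5 : |Chebyshev.psi y - y| = |Chebyshev.psi y / y - 1| * y := by
      rw [← abs_of_pos hy, ← abs_mul, abs_of_pos hy]
      congr 1
      field_simp
    rw [h5]
    exact mul_le_mul_of_nonneg_right h4.le hy.le
  have h4 := abs_le.mp (key _ (Real.exp_pos v) h3)
  have h5 := abs_le.mp (key _ (Real.exp_pos (v - δ)) h2)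
  have h6 : Real.exp (v - δ) = Real.exp v * Real.exp (-δ) := by
    rw [← Real.exp_add]; congr 1
  have h7 : 1 - δ ≤ Real.exp (-δ) := by
    have := Real.add_one_le_exp (-δ); linarith
  have h8 : Real.exp (v - δ) ≤ Real.exp v := Real.exp_le_exp.mpr (by linarith)
  have h9 : Real.exp v * (1 - δ) ≤ Real.exp (v - δ) := by
    rw [h6]; exact mul_le_mul_of_nonneg_left h7 (Real.exp_pos v).le
  have h10 : ε * Real.exp (v - δ) ≤ ε * Real.exp v := mul_le_mul_of_nonneg_left h8 hε.le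
  nlinarith [h4.2, h5.1]

/-- refined time side bound -/
lemma FF_refined (η : ℝ) (hη : 0 < η) : ∃ X v₁ : ℝ, 2 ≤ X ∧ 0 ≤ v₁ ∧
    ∀ a : ℕ → ℂ, (∀ n, ‖a n‖ ≤ ArithmeticFunction.vonMangoldt n) →
    ∀ σ v : ℝ, 1 < σ → σ ≤ 2 → v₁ ≤ v →
      ‖FF a σ X v‖ ≤ η * Real.exp (-((σ - 1) * v)) := by
  set δ := η / 4 with hδ
  have hδ0 : 0 < δ := by positivity
  obtain ⟨v₀, hv₀, hv⟩ := psi_short δ δ hδ0.le hδ0
  -- choose X with `Cψ e^{-δ (X - 1)} ≤ η / 4`
  obtain ⟨X, hX2, hX⟩ : ∃ X : ℝ, 2 ≤ X ∧ Cψ * Real.exp (-(δ * (X - 1))) ≤ η / 4 := by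
    have h1 : Tendsto (fun X : ℝ => Cψ * Real.exp (-(δ * (X - 1)))) atTop (𝓝 (Cψ * 0)) := by
      refine Tendsto.const_mul _ (Real.tendsto_exp_neg_atTop_nhds_zero.comp ?_)
      exact (tendsto_atTop_add_const_right _ (-1) tendsto_id).const_mul_atTop hδ0
    rw [mul_zero] at h1
    have h2 := (h1.eventually_le_const (show 0 < η / 4 by positivity)).and (eventually_ge_atTop 2)
    obtain ⟨X, hX1, hX2⟩ := h2.exists
    exact ⟨X, hX2, hX1⟩
  refine ⟨X, v₀, hX2, hv₀, ?_⟩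
  intro a ha σ v hσ1 hσ2 hvv
  refine (norm_FF_le_sum a _ ha σ X v).trans ?_
  -- termwise bound
  set N := ⌊Real.exp v⌋₊ with hN
  set M := ⌊Real.exp (v - δ)⌋₊ with hM
  have hMN : M ≤ N := Nat.floor_mono (Real.exp_le_exp.mpr (by linarith))
  have h1 : ∀ n ∈ Ioc 0 N, ArithmeticFunction.vonMangoldt n *
      Real.exp (-(σ * Real.log n) - X * (v - Real.log n)) ≤
      (if n ≤ M then ArithmeticFunction.vonMangoldt n * Real.exp (-(σ * v) - δ * (X - σ)) else
        ArithmeticFunction.vonMangoldt n * Real.exp (-(σ * v))) := by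
    intro n hn
    rw [Finset.mem_Ioc] at hn
    have hn' : (0 : ℝ) < n := by exact_mod_cast hn.1
    split_ifs with hnM
    · have h1 : (n : ℝ) ≤ Real.exp (v - δ) := (Nat.le_floor_iff (Real.exp_pos _).le).mp hnM
      have h2 : Real.log n ≤ v - δ := (Real.log_le_iff_le_exp hn').mpr h1
      apply mul_le_mul_of_nonneg_left _ ArithmeticFunction.vonMangoldt_nonneg
      apply Real.exp_le_exp.mpr
      nlinarith
    · have h1 : (n : ℝ) ≤ Real.exp v := (Nat.le_floor_iff (Real.exp_pos _).le).mp hn.2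
      have h2 : Real.log n ≤ v := (Real.log_le_iff_le_exp hn').mpr h1
      apply mul_le_mul_of_nonneg_left _ ArithmeticFunction.vonMangoldt_nonneg
      apply Real.exp_le_exp.mpr
      nlinarith
  refine (Finset.sum_le_sum h1).trans ?_
  rw [Finset.sum_ite]
  have h2 : (Ioc 0 N).filter (fun n => n ≤ M) = Ioc 0 M := by
    ext n; simp only [Finset.mem_filter, Finset.mem_Ioc]; omega
  have h3 : ∑ n ∈ (Ioc 0 N).filter (fun n => ¬ n ≤ M), ArithmeticFunction.vonMangoldt n =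
      Chebyshev.psi (Real.exp v) - Chebyshev.psi (Real.exp (v - δ)) := by
    rw [← sum_le_psi, ← sum_le_psi, ← hN, ← hM, eq_sub_iff_add_eq, add_comm,
      ← h2, Finset.sum_filter_add_sum_filter_not]
  rw [← Finset.sum_mul, ← Finset.sum_mul, h2, h3, sum_le_psi]
  have h4 : Chebyshev.psi (Real.exp (v - δ)) * Real.exp (-(σ * v) - δ * (X - σ)) ≤
      η / 4 * Real.exp (-((σ - 1) * v)) := by
    calc Chebyshev.psi (Real.exp (v - δ)) * Real.exp (-(σ * v) - δ * (X - σ))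
        ≤ (Cψ * Real.exp (v - δ)) * Real.exp (-(σ * v) - δ * (X - σ)) :=
          mul_le_mul_of_nonneg_right (psi_le _ (Real.exp_pos _).le) (Real.exp_pos _).le
      _ = (Cψ * Real.exp (-(δ * (X - σ + 1)))) * Real.exp (-((σ - 1) * v)) := by
          rw [mul_assoc, mul_assoc, ← Real.exp_add, ← Real.exp_add]; congr 2; ring
      _ ≤ (Cψ * Real.exp (-(δ * (X - 1)))) * Real.exp (-((σ - 1) * v)) := by
          apply mul_le_mul_of_nonneg_right _ (Real.exp_pos _).le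
          apply mul_le_mul_of_nonneg_left _ Cψ_pos.le
          apply Real.exp_le_exp.mpr
          nlinarith
      _ ≤ η / 4 * Real.exp (-((σ - 1) * v)) :=
          mul_le_mul_of_nonneg_right hX (Real.exp_pos _).le
  have h5 : (Chebyshev.psi (Real.exp v) - Chebyshev.psi (Real.exp (v - δ))) *
      Real.exp (-(σ * v)) ≤ (3 * δ) * Real.exp (-((σ - 1) * v)) := by
    calc (Chebyshev.psi (Real.exp v) - Chebyshev.psi (Real.exp (v - δ))) * Real.exp (-(σ * v))
        ≤ ((δ + 2 * δ) * Real.exp v) * Real.exp (-(σ * v)) :=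
          mul_le_mul_of_nonneg_right (hv v hvv) (Real.exp_pos _).le
      _ = (3 * δ) * Real.exp (-((σ - 1) * v)) := by
          rw [mul_assoc, ← Real.exp_add]
          have : v + -(σ * v) = -((σ - 1) * v) := by ring
          rw [this]; ring
  have h6 : η / 4 + 3 * δ = η := by rw [hδ]; ring
  calc _ ≤ η / 4 * Real.exp (-((σ - 1) * v)) + (3 * δ) * Real.exp (-((σ - 1) * v)) :=
        add_le_add h4 h5
    _ = η * Real.exp (-((σ - 1) * v)) := by rw [← add_mul, h6]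

end Pool.Agent.H489R2
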