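import Mathlib

set_option autoImplicit false

/-!
# Qualitative Halász theorem, part D: Euler product bounds
-/

namespace Pool.Agent.H489R2

open Finset Filter Topology MeasureTheory Complex

/-- the constant `Σ_p p^{-2}` -/
noncomputable def C2 : ℝ := ∑' p : Nat.Primes, ((p : ℕ) : ℝ) ^ (-2 : ℝ)

lemma summable_C2 : Summable fun p : Nat.Primes => ((p : ℕ) : ℝ) ^ (-2 : ℝ) :=
  Nat.Primes.summable_rpow.mpr (by norm_num)

lemma norm_g_cpow_le (g : ℕ →*₀ ℂ) (hg : ∀ n, ‖g n‖ ≤ 1) (s : ℂ) (n : ℕ) (hn : 0 < n) :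
    ‖g n * (n : ℂ) ^ (-s)‖ ≤ (n : ℝ) ^ (-s.re) := by
  rw [norm_mul, Complex.norm_natCast_cpow_of_pos hn, neg_re]
  exact mul_le_of_le_one_left (by positivity) (hg n)

lemma log_bound (z : ℂ) (hz : ‖z‖ ≤ 1 / 2) : ‖-log (1 - z) - z‖ ≤ ‖z‖ ^ 2 := by
  have h1 := norm_log_one_add_sub_self_le (z := -z) (by rw [norm_neg]; linarith)
  have h2 : -log (1 - z) - z = -(log (1 + -z) - -z) := by
    rw [← sub_eq_add_neg]; ring
  rw [h2, norm_neg]
  refine h1.trans ?_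
  rw [norm_neg]
  have h3 : (1 - ‖z‖)⁻¹ ≤ 2 := by
    rw [inv_le_comm₀ (by linarith) (by norm_num)]
    linarith
  have h4 : 0 ≤ ‖z‖ ^ 2 := by positivity
  nlinarith

lemma summable_g (g : ℕ →*₀ ℂ) (hg : ∀ n, ‖g n‖ ≤ 1) (s : ℂ) (hs : 1 < s.re) :
    Summable fun p : Nat.Primes => g (p : ℕ) * ((p : ℕ) : ℂ) ^ (-s) := by
  refine Summable.of_norm_bounded (g := fun p : Nat.Primes => ((p : ℕ) : ℝ) ^ (-s.re))
    (Nat.Primes.summable_rpow.mpr (by linarith)) fun p => ?_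
  exact norm_g_cpow_le g hg s p p.2.pos

lemma LSeries_eq_exp (g : ℕ →*₀ ℂ) (hg : ∀ n, ‖g n‖ ≤ 1) (s : ℂ) (hs : 1 < s.re) :
    LSeries g s = cexp (∑' p : Nat.Primes, -log (1 - g (p : ℕ) * ((p : ℕ) : ℂ) ^ (-s))) := by
  have hs0 : s ≠ 0 := by
    rintro rfl
    simp at hs
    linarith
  have hF : ∀ n : ℕ, (g * riemannZetaSummandHom hs0) n = g n * (n : ℂ) ^ (-s) := fun n => rfl
  have hsum : Summable fun n : ℕ => ‖(g * riemannZetaSummandHom hs0) n‖ := by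
    refine Summable.of_nonneg_of_le (fun n => norm_nonneg _) (fun n => ?_)
      ((Real.summable_nat_rpow (p := -s.re)).mpr (by linarith))
    rw [hF]
    rcases Nat.eq_zero_or_pos n with rfl | hn
    · rw [map_zero, zero_mul, norm_zero]; positivity
    · exact norm_g_cpow_le g hg s n hn
  have h := EulerProduct.exp_tsum_primes_log_eq_tsum hsum
  simp only [hF] at h
  rw [h]
  unfold LSeries
  refine tsum_congr fun n => ?_
  rcases Nat.eq_zero_or_pos n with rfl | hn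
  · simp
  · rw [LSeries.term_of_ne_zero hn.ne', Complex.cpow_neg, div_eq_mul_inv]

lemma norm_LSeries_bounds (g : ℕ →*₀ ℂ) (hg : ∀ n, ‖g n‖ ≤ 1) (s : ℂ) (hs : 1 < s.re) :
    Real.exp ((∑' p : Nat.Primes, (g (p : ℕ) * ((p : ℕ) : ℂ) ^ (-s)).re) - C2) ≤ ‖LSeries g s‖ ∧
    ‖LSeries g s‖ ≤ Real.exp ((∑' p : Nat.Primes, (g (p : ℕ) * ((p : ℕ) : ℂ) ^ (-s)).re) + C2) := by
  rw [LSeries_eq_exp g hg s hs, Complex.norm_exp]
  have hz : ∀ p : Nat.Primes, ‖g (p : ℕ) * ((p : ℕ) : ℂ) ^ (-s)‖ ≤ ((p : ℕ) : ℝ) ^ (-1 : ℝ) := by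
    intro p
    refine (norm_g_cpow_le g hg s p p.2.pos).trans ?_
    have h1 : (1 : ℝ) ≤ ((p : ℕ) : ℝ) := by exact_mod_cast p.2.one_lt.le
    exact Real.rpow_le_rpow_of_exponent_le h1 (by linarith)
  have hz2 : ∀ p : Nat.Primes, ‖g (p : ℕ) * ((p : ℕ) : ℂ) ^ (-s)‖ ≤ 1 / 2 := by
    intro p
    refine (hz p).trans ?_
    have h1 : (2 : ℝ) ≤ ((p : ℕ) : ℝ) := by exact_mod_cast p.2.two_le
    rw [Real.rpow_neg_one, ← one_div]
    exact one_div_le_one_div_of_le (by norm_num) h1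
  have hb : ∀ p : Nat.Primes, ‖-log (1 - g (p : ℕ) * ((p : ℕ) : ℂ) ^ (-s)) -
      g (p : ℕ) * ((p : ℕ) : ℂ) ^ (-s)‖ ≤ ((p : ℕ) : ℝ) ^ (-2 : ℝ) := by
    intro p
    refine (log_bound _ (hz2 p)).trans ?_
    have h1 : (0 : ℝ) < ((p : ℕ) : ℝ) := by exact_mod_cast p.2.pos
    calc ‖g (p : ℕ) * ((p : ℕ) : ℂ) ^ (-s)‖ ^ 2 ≤ (((p : ℕ) : ℝ) ^ (-1 : ℝ)) ^ 2 := by
          gcongr; exact hz p
      _ = ((p : ℕ) : ℝ) ^ (-2 : ℝ) := by
          rw [← Real.rpow_natCast, ← Real.rpow_mul h1.le]; norm_num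
  have hsum := summable_g g hg s hs
  have hdiff : Summable fun p : Nat.Primes => -log (1 - g (p : ℕ) * ((p : ℕ) : ℂ) ^ (-s)) -
      g (p : ℕ) * ((p : ℕ) : ℂ) ^ (-s) := Summable.of_norm_bounded summable_C2 hb
  have hlog : Summable fun p : Nat.Primes => -log (1 - g (p : ℕ) * ((p : ℕ) : ℂ) ^ (-s)) := by
    have := hdiff.add hsum
    simpa using this
  have h1 : ‖(∑' p : Nat.Primes, -log (1 - g (p : ℕ) * ((p : ℕ) : ℂ) ^ (-s))) -
      ∑' p : Nat.Primes, g (p : ℕ) * ((p : ℕ) : ℂ) ^ (-s)‖ ≤ C2 := by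
    rw [← hlog.tsum_sub hsum]
    exact tsum_of_norm_bounded summable_C2.hasSum hb
  have h2 := (Complex.abs_re_le_norm _).trans h1
  rw [Complex.sub_re, abs_le] at h2
  rw [← Complex.re_tsum hsum]
  constructor
  · exact Real.exp_le_exp.mpr (by linarith [h2.1])
  · exact Real.exp_le_exp.mpr (by linarith [h2.2])

end Pool.Agent.H489R2
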