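import Mathlib
import Pool.Agent.H489R2.HalC
import Pool.Agent.H489R2.HalD

set_option autoImplicit false

/-!
# Qualitative Halász theorem, part E: the `L²` bound
-/

namespace Pool.Agent.H489R2

open Finset Filter Topology MeasureTheory Complex
open scoped ENNReal ArithmeticFunction

/-- the real zeta sum -/
noncomputable def Zr (σ : ℝ) : ℝ := ∑' n : ℕ, 1 / (n : ℝ) ^ σ

lemma Zr_nonneg (σ : ℝ) : 0 ≤ Zr σ := tsum_nonneg fun n => by positivity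

lemma summable_Zr (σ : ℝ) (hσ : 1 < σ) : Summable fun n : ℕ => 1 / (n : ℝ) ^ σ :=
  Real.summable_one_div_nat_rpow.mpr hσ

lemma Zr_tendsto : Tendsto (fun σ : ℝ => (σ - 1) * Zr σ) (𝓝[>] 1) (𝓝 1) :=
  tendsto_sub_mul_tsum_nat_rpow

lemma norm_term_le (a : ℕ → ℂ) (ha : ∀ n, ‖a n‖ ≤ 1) (s : ℂ) (hs : 1 < s.re) (n : ℕ) :
    ‖LSeries.term a s n‖ ≤ 1 / (n : ℝ) ^ s.re := by
  rw [LSeries.norm_term_eq]
  split_ifs with h
  · positivity
  · exact div_le_div_of_nonneg_right (ha n) (by positivity)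

lemma summable_of_norm_le_one (a : ℕ → ℂ) (ha : ∀ n, ‖a n‖ ≤ 1) (s : ℂ) (hs : 1 < s.re) :
    LSeriesSummable a s :=
  Summable.of_norm_bounded (summable_Zr s.re hs) (norm_term_le a ha s hs)

lemma norm_LSeries_le (a : ℕ → ℂ) (ha : ∀ n, ‖a n‖ ≤ 1) (s : ℂ) (hs : 1 < s.re) :
    ‖LSeries a s‖ ≤ Zr s.re :=
  tsum_of_norm_bounded (summable_Zr s.re hs).hasSum (norm_term_le a ha s hs)

/-- `Λ g` -/
noncomputable def aL (g : ℕ → ℂ) (n : ℕ) : ℂ := (ArithmeticFunction.vonMangoldt n : ℂ) * g n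

/-- `g log` -/
noncomputable def aT (g : ℕ → ℂ) (n : ℕ) : ℂ := (Real.log n : ℂ) * g n

lemma norm_aL_le (g : ℕ → ℂ) (hg : ∀ n, ‖g n‖ ≤ 1) (n : ℕ) :
    ‖aL g n‖ ≤ ArithmeticFunction.vonMangoldt n := by
  unfold aL
  rw [norm_mul, Complex.norm_real, Real.norm_of_nonneg ArithmeticFunction.vonMangoldt_nonneg]
  exact mul_le_of_le_one_right ArithmeticFunction.vonMangoldt_nonneg (hg n)

lemma summable_aL (g : ℕ → ℂ) (hg : ∀ n, ‖g n‖ ≤ 1) (s : ℂ) (hs : 1 < s.re) :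
    LSeriesSummable (aL g) s := by
  have h := ArithmeticFunction.LSeriesSummable_vonMangoldt hs
  refine Summable.of_norm_bounded h.norm fun n => ?_
  rw [LSeries.norm_term_eq, LSeries.norm_term_eq]
  split_ifs with h0
  · exact le_rfl
  · refine div_le_div_of_nonneg_right ?_ (by positivity)
    refine (norm_aL_le g hg n).trans ?_
    rw [Complex.norm_real]
    exact le_abs_self _

lemma aT_eq_convolution (g : ℕ →*₀ ℂ) : LSeries.convolution (aL g) g = aT g := by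
  rw [LSeries.convolution_def]
  ext n
  have h3 : ∀ x ∈ n.divisorsAntidiagonal, aL g x.1 * g x.2 =
      (ArithmeticFunction.vonMangoldt x.1 : ℂ) * g n := by
    intro x hx
    have h4 := (Nat.mem_divisorsAntidiagonal.mp hx).1
    unfold aL
    rw [mul_assoc, ← map_mul, h4]
  rw [Finset.sum_congr rfl h3, ← Finset.sum_mul]
  unfold aT
  congr 1
  have h5 := ArithmeticFunction.vonMangoldt_sum (n := n)
  rw [← h5]
  push_cast
  exact Nat.sum_divisorsAntidiagonal (n := n)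
    (f := fun i _ => (ArithmeticFunction.vonMangoldt i : ℂ))

lemma LSeries_aT (g : ℕ →*₀ ℂ) (hg : ∀ n, ‖g n‖ ≤ 1) (s : ℂ) (hs : 1 < s.re) :
    LSeries (aT g) s = LSeries (aL g) s * LSeries g s := by
  rw [← aT_eq_convolution]
  exact LSeries_convolution' (summable_aL g hg s hs) (summable_of_norm_le_one g hg s hs)

lemma summable_aT (g : ℕ →*₀ ℂ) (hg : ∀ n, ‖g n‖ ≤ 1) (s : ℂ) (hs : 1 < s.re) :
    LSeriesSummable (aT g) s := by
  rw [← aT_eq_convolution]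
  exact (summable_aL g hg s hs).convolution (summable_of_norm_le_one g hg s hs)

/-! ### uniform decay -/

/-- the terms of `E_σ(ξ)` -/
noncomputable def eterm (g : ℕ → ℂ) (σ ξ : ℝ) (p : Nat.Primes) : ℝ :=
  (1 - (g (p : ℕ) * ((p : ℕ) : ℂ) ^ (-(2 * Real.pi * ξ * I))).re) * ((p : ℕ) : ℝ) ^ (-σ)

lemma eterm_factor (g : ℕ → ℂ) (hg : ∀ n, ‖g n‖ ≤ 1) (ξ : ℝ) (p : Nat.Primes) :
    0 ≤ 1 - (g (p : ℕ) * ((p : ℕ) : ℂ) ^ (-(2 * Real.pi * ξ * I))).re ∧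
    1 - (g (p : ℕ) * ((p : ℕ) : ℂ) ^ (-(2 * Real.pi * ξ * I))).re ≤ 2 := by
  have h1 : ‖g (p : ℕ) * ((p : ℕ) : ℂ) ^ (-(2 * Real.pi * ξ * I))‖ ≤ 1 := by
    rw [norm_mul, Complex.norm_natCast_cpow_of_pos p.2.pos]
    have : (-(2 * Real.pi * ξ * I)).re = 0 := by simp
    rw [this, Real.rpow_zero, mul_one]
    exact hg _
  have h2 := (abs_le.mp ((Complex.abs_re_le_norm _).trans h1))
  constructor <;> linarith [h2.1, h2.2]

lemma eterm_nonneg (g : ℕ → ℂ) (hg : ∀ n, ‖g n‖ ≤ 1) (σ ξ : ℝ) (p : Nat.Primes) :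
    0 ≤ eterm g σ ξ p := mul_nonneg (eterm_factor g hg ξ p).1 (by positivity)

lemma summable_eterm (g : ℕ → ℂ) (hg : ∀ n, ‖g n‖ ≤ 1) (σ ξ : ℝ) (hσ : 1 < σ) :
    Summable (eterm g σ ξ) := by
  refine Summable.of_nonneg_of_le (eterm_nonneg g hg σ ξ) (fun p => ?_)
    ((Nat.Primes.summable_rpow.mpr (show -σ < -1 by linarith)).mul_left 2)
  exact mul_le_mul_of_nonneg_right (eterm_factor g hg ξ p).2 (by positivity)

lemma eterm_eq (g : ℕ → ℂ) (σ ξ : ℝ) (p : Nat.Primes) :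
    (g (p : ℕ) * ((p : ℕ) : ℂ) ^ (-(σ + 2 * Real.pi * ξ * I))).re =
      ((p : ℕ) : ℝ) ^ (-σ) - eterm g σ ξ p := by
  have hp : ((p : ℕ) : ℂ) ≠ 0 := by exact_mod_cast p.2.ne_zero
  have hp' : (0 : ℝ) ≤ ((p : ℕ) : ℝ) := by positivity
  unfold eterm
  have h1 : -((σ : ℂ) + 2 * Real.pi * ξ * I) = ((-σ : ℝ) : ℂ) + -(2 * Real.pi * ξ * I) := by
    push_cast; ring
  rw [h1, Complex.cpow_add _ _ hp]
  have h2 : ((p : ℕ) : ℂ) ^ ((-σ : ℝ) : ℂ) = ((((p : ℕ) : ℝ) ^ (-σ) : ℝ) : ℂ) := by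
    rw [Complex.ofReal_cpow hp']; simp
  rw [h2]
  have h3 : g (p : ℕ) * (((((p : ℕ) : ℝ) ^ (-σ) : ℝ) : ℂ) * ((p : ℕ) : ℂ) ^ (-(2 * Real.pi * ξ * I))) =
      ((((p : ℕ) : ℝ) ^ (-σ) : ℝ) : ℂ) * (g (p : ℕ) * ((p : ℕ) : ℂ) ^ (-(2 * Real.pi * ξ * I))) := by
    ring
  rw [h3, Complex.re_ofReal_mul]
  ring

lemma exp_primes_le (σ : ℝ) (hσ : 1 < σ) :
    Real.exp (∑' p : Nat.Primes, ((p : ℕ) : ℝ) ^ (-σ)) ≤ Zr σ * Real.exp C2 := by
  have h1 : ∀ n : ℕ, ‖(1 : ℕ →*₀ ℂ) n‖ ≤ 1 := by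
    intro n
    rcases eq_or_ne n 0 with rfl | hn
    · simp
    · rw [MonoidWithZeroHom.one_apply_of_ne_zero hn]; simp
  have hs : (1 : ℝ) < (σ : ℂ).re := by simpa using hσ
  have h2 := (norm_LSeries_bounds (1 : ℕ →*₀ ℂ) h1 σ hs).1
  have h3 := norm_LSeries_le (1 : ℕ →*₀ ℂ) h1 σ hs
  have h4 : ∀ p : Nat.Primes, ((1 : ℕ →*₀ ℂ) (p : ℕ) * ((p : ℕ) : ℂ) ^ (-(σ : ℂ))).re =
      ((p : ℕ) : ℝ) ^ (-σ) := by
    intro p
    rw [MonoidWithZeroHom.one_apply_of_ne_zero p.2.ne_zero, one_mul]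
    have h2 : ((p : ℕ) : ℂ) ^ (-(σ : ℂ)) = ((((p : ℕ) : ℝ) ^ (-σ) : ℝ) : ℂ) := by
      rw [Complex.ofReal_cpow (by positivity)]; simp
    rw [h2, Complex.ofReal_re]
  simp_rw [h4] at h2
  rw [Real.exp_sub, div_le_iff₀ (Real.exp_pos _)] at h2
  refine h2.trans ?_
  refine mul_le_mul_of_nonneg_right (h3.trans (le_of_eq ?_)) (Real.exp_pos _).le
  simp

/-- `‖G(σ+2πiξ)‖ ≤ ζ(σ) exp(2 C2 - E_σ(ξ))` -/
lemma norm_G_le (g : ℕ →*₀ ℂ) (hg : ∀ n, ‖g n‖ ≤ 1) (σ ξ : ℝ) (hσ : 1 < σ) :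
    ‖LSeries g (σ + 2 * Real.pi * ξ * I)‖ ≤
      Zr σ * Real.exp (2 * C2) * Real.exp (-∑' p, eterm g σ ξ p) := by
  have hs : (1 : ℝ) < ((σ : ℂ) + 2 * Real.pi * ξ * I).re := by simpa using hσ
  have h1 := (norm_LSeries_bounds g hg _ hs).2
  simp_rw [eterm_eq] at h1
  rw [(Nat.Primes.summable_rpow.mpr (show -σ < -1 by linarith)).tsum_sub
    (summable_eterm g hg σ ξ hσ)] at h1
  refine h1.trans ?_
  have h2 := exp_primes_le σ hσ
  calc Real.exp (∑' p : Nat.Primes, ((p : ℕ) : ℝ) ^ (-σ) - ∑' p, eterm g σ ξ p + C2)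
      = Real.exp (∑' p : Nat.Primes, ((p : ℕ) : ℝ) ^ (-σ)) *
        (Real.exp C2 * Real.exp (-∑' p, eterm g σ ξ p)) := by
        rw [← Real.exp_add, ← Real.exp_add]; congr 1; ring
    _ ≤ Zr σ * Real.exp C2 * (Real.exp C2 * Real.exp (-∑' p, eterm g σ ξ p)) :=
        mul_le_mul_of_nonneg_right h2 (by positivity)
    _ = _ := by
        have : Real.exp (2 * C2) = Real.exp C2 * Real.exp C2 := by
          rw [← Real.exp_add]; congr 1; ring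
        rw [this]; ring

/-- `g` is non-pretentious: it does not pretend to be `n^{it}` for any real `t`. -/
def NonPret (g : ℕ → ℂ) : Prop := ∀ t : ℝ, ¬ Summable fun p : Nat.Primes =>
  (1 - (g (p : ℕ) * ((p : ℕ) : ℂ) ^ (-(t * I))).re) / ((p : ℕ) : ℝ)

lemma uniform_E (g : ℕ → ℂ) (hg : ∀ n, ‖g n‖ ≤ 1) (hnp : NonPret g) (K X : ℝ) :
    ∀ᶠ σ : ℝ in 𝓝 1, ∀ ξ ∈ Set.Icc (-X) X, ∃ F : Finset Nat.Primes,
      K < ∑ p ∈ F, eterm g σ ξ p := by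
  apply IsCompact.eventually_forall_of_forall_eventually isCompact_Icc
  intro ξ₀ _
  have h1 := hnp (2 * Real.pi * ξ₀)
  have h2 : ∀ p : Nat.Primes, (1 - (g (p : ℕ) * ((p : ℕ) : ℂ) ^
      (-((2 * Real.pi * ξ₀ : ℝ) * I))).re) / ((p : ℕ) : ℝ) = eterm g 1 ξ₀ p := by
    intro p
    unfold eterm
    rw [Real.rpow_neg_one, div_eq_mul_inv]
    push_cast
    rfl
  simp_rw [h2] at h1
  have h3 : ∃ F : Finset Nat.Primes, K < ∑ p ∈ F, eterm g 1 ξ₀ p := by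
    by_contra hcon
    push Not at hcon
    exact h1 (summable_of_sum_le (eterm_nonneg g hg 1 ξ₀) hcon)
  obtain ⟨F, hF⟩ := h3
  have hcont : Continuous fun z : ℝ × ℝ => ∑ p ∈ F, eterm g z.1 z.2 p := by
    refine continuous_finset_sum _ fun p _ => ?_
    unfold eterm
    have hp : ((p : ℕ) : ℂ) ≠ 0 := by exact_mod_cast p.2.ne_zero
    have hp' : ((p : ℕ) : ℝ) ≠ 0 := by exact_mod_cast p.2.ne_zero
    refine Continuous.mul ?_ ?_
    · refine continuous_const.sub ?_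
      refine Complex.continuous_re.comp ?_
      refine continuous_const.mul ?_
      refine Continuous.const_cpow ?_ (Or.inl hp)
      fun_prop
    · exact Continuous.rpow continuous_const (by fun_prop) (fun x => Or.inl hp')
  have := (hcont.tendsto (1, ξ₀)).eventually (lt_mem_nhds hF)
  filter_upwards [this] with z hz
  exact ⟨F, hz⟩

/-- `(σ - 1) sup_{|ξ| ≤ X} ‖G(σ+2πiξ)‖ → 0` -/
lemma uniform_G (g : ℕ →*₀ ℂ) (hg : ∀ n, ‖g n‖ ≤ 1) (hnp : NonPret g) (X ε : ℝ) (hε : 0 < ε) :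
    ∀ᶠ σ : ℝ in 𝓝[>] 1, ∀ ξ ∈ Set.Icc (-X) X,
      (σ - 1) * ‖LSeries g (σ + 2 * Real.pi * ξ * I)‖ ≤ ε := by
  obtain ⟨K, hK⟩ : ∃ K : ℝ, 2 * Real.exp (2 * C2) * Real.exp (-K) ≤ ε := by
    have h1 : Tendsto (fun K : ℝ => 2 * Real.exp (2 * C2) * Real.exp (-K)) atTop
        (𝓝 (2 * Real.exp (2 * C2) * 0)) :=
      Tendsto.const_mul _ Real.tendsto_exp_neg_atTop_nhds_zero
    rw [mul_zero] at h1
    exact (h1.eventually_le_const hε).exists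
  have h1 := (uniform_E g hg hnp K X).filter_mono (nhdsWithin_le_nhds (s := Set.Ioi 1))
  have h2 : ∀ᶠ σ : ℝ in 𝓝[>] 1, (σ - 1) * Zr σ ≤ 2 :=
    Zr_tendsto.eventually_le_const (by norm_num)
  filter_upwards [h1, h2, self_mem_nhdsWithin] with σ hσ1 hσ2 hσ3 ξ hξ
  rw [Set.mem_Ioi] at hσ3
  obtain ⟨F, hF⟩ := hσ1 ξ hξ
  have h3 : K ≤ ∑' p, eterm g σ ξ p :=
    hF.le.trans ((summable_eterm g hg σ ξ hσ3).sum_le_tsum F fun p _ => eterm_nonneg g hg σ ξ p)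
  have h4 := norm_G_le g hg σ ξ hσ3
  calc (σ - 1) * ‖LSeries g (σ + 2 * Real.pi * ξ * I)‖
      ≤ (σ - 1) * (Zr σ * Real.exp (2 * C2) * Real.exp (-∑' p, eterm g σ ξ p)) :=
        mul_le_mul_of_nonneg_left h4 (by linarith)
    _ = ((σ - 1) * Zr σ) * (Real.exp (2 * C2) * Real.exp (-∑' p, eterm g σ ξ p)) := by ring
    _ ≤ 2 * (Real.exp (2 * C2) * Real.exp (-K)) := by
        refine mul_le_mul hσ2 ?_ (by positivity) (by norm_num)
        refine mul_le_mul_of_nonneg_left ?_ (Real.exp_pos _).le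
        exact Real.exp_le_exp.mpr (by linarith)
    _ ≤ ε := by rw [← mul_assoc]; exact hK

end Pool.Agent.H489R2
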