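import Mathlib
import Pool.Agent.H489R2.HalE

set_option autoImplicit false

/-!
# Qualitative Halász theorem, part F: the `L²` bound, conclusion
-/

namespace Pool.Agent.H489R2

open Finset Filter Topology MeasureTheory Complex
open scoped ENNReal ArithmeticFunction

lemma summable_cc (a : ℕ → ℂ) (σ : ℝ) (h : LSeriesSummable a σ) : Summable fun n => ‖cc a σ n‖ :=
  h.norm

/-- `L²` norm from a pointwise exponential bound on `[v₀, ∞)`. -/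
lemma lintegral_exp_bound (c v₀ η : ℝ) (hc : 0 < c) (hη : 0 ≤ η) (hv₀ : 0 ≤ v₀) :
    ∫⁻ v in Set.Ici v₀, ENNReal.ofReal ((η * Real.exp (-(c * v))) ^ 2) ≤
      ENNReal.ofReal (η ^ 2 / (2 * c)) := by
  have h1 : ∀ v : ℝ, (η * Real.exp (-(c * v))) ^ 2 = η ^ 2 * Real.exp (-(2 * c) * v) := by
    intro v
    rw [mul_pow, ← Real.exp_nat_mul]
    congr 2
    push_cast; ring
  simp_rw [h1]
  have hint : IntegrableOn (fun v : ℝ => η ^ 2 * Real.exp (-(2 * c) * v)) (Set.Ici v₀) := by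
    rw [integrableOn_Ici_iff_integrableOn_Ioi]
    exact (integrableOn_exp_mul_Ioi (a := -(2 * c)) (by linarith) v₀).const_mul _
  rw [← ofReal_integral_eq_lintegral_ofReal hint
    (Eventually.of_forall fun v => by positivity)]
  apply ENNReal.ofReal_le_ofReal
  rw [integral_Ici_eq_integral_Ioi, integral_const_mul,
    integral_exp_mul_Ioi (a := -(2 * c)) (by linarith) v₀, neg_div_neg_eq, mul_div_assoc']
  apply div_le_div_of_nonneg_right _ (by positivity)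
  have : Real.exp (-(2 * c) * v₀) ≤ 1 := by
    rw [Real.exp_le_one_iff]
    nlinarith
  nlinarith [sq_nonneg η]

lemma enorm_sq_le (z : ℂ) (b : ℝ) (h : ‖z‖ ≤ b) : ‖z‖ₑ ^ 2 ≤ ENNReal.ofReal (b ^ 2) := by
  have hb : 0 ≤ b := (norm_nonneg z).trans h
  rw [ENNReal.ofReal_pow hb]
  gcongr
  rw [← ofReal_norm]
  exact ENNReal.ofReal_le_ofReal h

lemma enorm_sq_eq (z : ℂ) : ‖z‖ₑ ^ 2 = ENNReal.ofReal (‖z‖ ^ 2) := by
  rw [ENNReal.ofReal_pow (norm_nonneg z), ofReal_norm]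

lemma lintegral_FF_crude (a : ℕ → ℂ) (ha : ∀ n, ‖a n‖ ≤ ArithmeticFunction.vonMangoldt n)
    (σ : ℝ) (hσ : 1 < σ) :
    ∫⁻ v, ‖FF a σ σ v‖ₑ ^ 2 ≤ ENNReal.ofReal (Cψ ^ 2 / (2 * (σ - 1))) := by
  have h1 : ∫⁻ v, ‖FF a σ σ v‖ₑ ^ 2 =
      ∫⁻ v in Set.Ici (0 : ℝ), ‖FF a σ σ v‖ₑ ^ 2 := by
    rw [← lintegral_indicator measurableSet_Ici]
    refine lintegral_congr fun v => ?_
    by_cases hv : 0 ≤ v
    · rw [Set.indicator_of_mem (by simpa using hv)]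
    · rw [Set.indicator_of_notMem (by simpa using hv), FF_neg a σ σ v (not_le.mp hv)]
      simp
  rw [h1]
  refine le_trans ?_ (lintegral_exp_bound (σ - 1) 0 Cψ (by linarith) Cψ_pos.le le_rfl)
  exact lintegral_mono fun v => enorm_sq_le _ _ (FF_crude a ha σ σ v le_rfl)

lemma lintegral_FF_refined (a : ℕ → ℂ) (ha : ∀ n, ‖a n‖ ≤ ArithmeticFunction.vonMangoldt n)
    (η X v₁ : ℝ) (hη : 0 ≤ η) (hX : 2 ≤ X) (hv₁ : 0 ≤ v₁)
    (h : ∀ σ v : ℝ, 1 < σ → σ ≤ 2 → v₁ ≤ v → ‖FF a σ X v‖ ≤ η * Real.exp (-((σ - 1) * v)))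
    (σ : ℝ) (hσ : 1 < σ) (hσ2 : σ ≤ 2) :
    ∫⁻ v, ‖FF a σ X v‖ₑ ^ 2 ≤ ENNReal.ofReal (Cψ ^ 2 * v₁ + η ^ 2 / (2 * (σ - 1))) := by
  have h1 : ∀ v, ‖FF a σ X v‖ₑ ^ 2 ≤ (Set.Ico (0 : ℝ) v₁).indicator
      (fun _ => ENNReal.ofReal (Cψ ^ 2)) v + (Set.Ici v₁).indicator
        (fun v => ENNReal.ofReal ((η * Real.exp (-((σ - 1) * v))) ^ 2)) v := by
    intro v
    rcases lt_or_ge v 0 with hv | hv
    · rw [FF_neg a σ X v hv]
      simp
    rcases lt_or_ge v v₁ with hv' | hv'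
    · rw [Set.indicator_of_mem (show v ∈ Set.Ico 0 v₁ from ⟨hv, hv'⟩)]
      refine le_trans (enorm_sq_le _ Cψ ?_) le_self_add
      refine (FF_crude a ha σ X v (by linarith)).trans ?_
      refine mul_le_of_le_one_right Cψ_pos.le ?_
      rw [Real.exp_le_one_iff]
      nlinarith
    · rw [Set.indicator_of_mem (show v ∈ Set.Ici v₁ from hv')]
      exact le_trans (enorm_sq_le _ _ (h σ v hσ hσ2 hv')) le_add_self
  refine (lintegral_mono h1).trans ?_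
  rw [lintegral_add_left ((measurable_const).indicator measurableSet_Ico),
    lintegral_indicator_const measurableSet_Ico, lintegral_indicator measurableSet_Ici,
    ENNReal.ofReal_add (by positivity) (div_nonneg (sq_nonneg _) (by linarith))]
  gcongr
  · rw [Real.volume_Ico, sub_zero, ← ENNReal.ofReal_mul (by positivity)]
  · exact lintegral_exp_bound (σ - 1) v₁ η (by linarith) hη hv₁

/-- the key `L²` inequality -/
lemma J_bound (g : ℕ →*₀ ℂ) (hg : ∀ n, ‖g n‖ ≤ 1) (η X v₁ M : ℝ) (hη : 0 ≤ η) (hX : 2 ≤ X)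
    (hv₁ : 0 ≤ v₁)
    (h : ∀ σ v : ℝ, 1 < σ → σ ≤ 2 → v₁ ≤ v → ‖FF (aL g) σ X v‖ ≤ η * Real.exp (-((σ - 1) * v)))
    (σ : ℝ) (hσ : 1 < σ) (hσ2 : σ ≤ 2) (hM0 : 0 ≤ M)
    (hM : ∀ ξ ∈ Set.Icc (-X) X, ‖LSeries g (σ + 2 * Real.pi * ξ * I)‖ ≤ M) :
    ∫⁻ v, ‖FF (aT g) σ σ v‖ₑ ^ 2 ≤ ENNReal.ofReal
      (M ^ 2 * (Cψ ^ 2 / (2 * (σ - 1))) +
        2 * Zr σ ^ 2 * (Cψ ^ 2 * v₁ + η ^ 2 / (2 * (σ - 1)))) := by
  have hsre : ∀ ξ : ℝ, (1 : ℝ) < ((σ : ℂ) + 2 * Real.pi * ξ * I).re := by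
    intro ξ; simpa using hσ
  have hs1 : (1 : ℝ) < (σ : ℂ).re := by simpa using hσ
  have hσ0 : 0 < σ := by linarith
  have hX0 : 0 < X := by linarith
  rw [← plancherel_FF (aT g) σ σ hσ0 (summable_cc _ _ (summable_aT g hg σ hs1))]
  have hpt : ∀ ξ : ℝ, ‖LSeries (aT g) (σ + 2 * Real.pi * ξ * I) /
      (σ + 2 * Real.pi * ξ * I)‖ₑ ^ 2 ≤
      ENNReal.ofReal (M ^ 2) * ‖LSeries (aL g) (σ + 2 * Real.pi * ξ * I) /
        (σ + 2 * Real.pi * ξ * I)‖ₑ ^ 2 +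
      ENNReal.ofReal (2 * Zr σ ^ 2) * ‖LSeries (aL g) (σ + 2 * Real.pi * ξ * I) /
        (X + 2 * Real.pi * ξ * I)‖ₑ ^ 2 := by
    intro ξ
    rw [LSeries_aT g hg _ (hsre ξ)]
    set s : ℂ := (σ : ℂ) + 2 * Real.pi * ξ * I with hs
    set L := LSeries (aL g) s
    set G := LSeries g s with hG
    have e1 : L * G / s = (L / s) * G := by ring
    rw [e1]
    by_cases hξ : ξ ∈ Set.Icc (-X) X
    · refine le_trans ?_ le_self_add
      rw [enorm_mul, mul_pow, mul_comm]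
      gcongr
      exact enorm_sq_le _ _ (hM ξ hξ)
    · refine le_trans ?_ le_add_self
      rw [enorm_sq_eq, enorm_sq_eq, ← ENNReal.ofReal_mul (by positivity)]
      apply ENNReal.ofReal_le_ofReal
      have hZ : ‖G‖ ≤ Zr σ := by
        have := norm_LSeries_le g hg s (hsre ξ)
        have e2 : s.re = σ := by simp [hs]
        rwa [e2] at this
      have hξ2 : X ^ 2 ≤ ξ ^ 2 := by
        rw [Set.mem_Icc, not_and_or, not_le, not_le] at hξ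
        rcases hξ with h | h <;> nlinarith
      have hs2 : ‖s‖ ^ 2 = σ ^ 2 + 4 * Real.pi ^ 2 * ξ ^ 2 := by
        rw [← Complex.normSq_eq_norm_sq, Complex.normSq_apply]
        simp [hs]; ring
      have hX2 : ‖(X : ℂ) + 2 * Real.pi * ξ * I‖ ^ 2 = X ^ 2 + 4 * Real.pi ^ 2 * ξ ^ 2 := by
        rw [← Complex.normSq_eq_norm_sq, Complex.normSq_apply]
        simp; ring
      have hpi : 1 ≤ Real.pi ^ 2 := by nlinarith [Real.pi_gt_three]
      rw [norm_mul, norm_div, norm_div, mul_pow, div_pow, div_pow, hs2, hX2]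
      have p1 : 0 < σ ^ 2 + 4 * Real.pi ^ 2 * ξ ^ 2 := by positivity
      have p2 : 0 < X ^ 2 + 4 * Real.pi ^ 2 * ξ ^ 2 := by positivity
      have key : ‖L‖ ^ 2 / (σ ^ 2 + 4 * Real.pi ^ 2 * ξ ^ 2) ≤
          2 * (‖L‖ ^ 2 / (X ^ 2 + 4 * Real.pi ^ 2 * ξ ^ 2)) := by
        rw [mul_div_assoc', div_le_div_iff₀ p1 p2]
        have h4 : X ^ 2 + 4 * Real.pi ^ 2 * ξ ^ 2 ≤ 2 * (σ ^ 2 + 4 * Real.pi ^ 2 * ξ ^ 2) := by
          nlinarith [sq_nonneg σ, mul_le_mul_of_nonneg_right hpi (sq_nonneg ξ)]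
        calc ‖L‖ ^ 2 * (X ^ 2 + 4 * Real.pi ^ 2 * ξ ^ 2)
            ≤ ‖L‖ ^ 2 * (2 * (σ ^ 2 + 4 * Real.pi ^ 2 * ξ ^ 2)) :=
              mul_le_mul_of_nonneg_left h4 (by positivity)
          _ = 2 * ‖L‖ ^ 2 * (σ ^ 2 + 4 * Real.pi ^ 2 * ξ ^ 2) := by ring
      have hG2 : ‖G‖ ^ 2 ≤ Zr σ ^ 2 := by gcongr
      calc ‖L‖ ^ 2 / (σ ^ 2 + 4 * Real.pi ^ 2 * ξ ^ 2) * ‖G‖ ^ 2
          ≤ (2 * (‖L‖ ^ 2 / (X ^ 2 + 4 * Real.pi ^ 2 * ξ ^ 2))) * Zr σ ^ 2 :=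
            mul_le_mul key hG2 (by positivity) (by positivity)
        _ = 2 * Zr σ ^ 2 * (‖L‖ ^ 2 / (X ^ 2 + 4 * Real.pi ^ 2 * ξ ^ 2)) := by ring
  have hsL : Summable fun n => ‖cc (aL g) σ n‖ := summable_cc _ _ (summable_aL g hg σ hs1)
  have hmeas : Measurable fun ξ : ℝ => ENNReal.ofReal (M ^ 2) *
      ‖LSeries (aL g) (σ + 2 * Real.pi * ξ * I) / (σ + 2 * Real.pi * ξ * I)‖ₑ ^ 2 := by
    refine Measurable.const_mul ?_ _
    refine Measurable.pow_const ?_ _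
    refine Measurable.enorm ?_
    refine Measurable.div ?_ (by fun_prop)
    -- continuity of the L-series on the line
    have : Continuous fun ξ : ℝ => LSeries (aL g) (σ + 2 * Real.pi * ξ * I) := by
      unfold LSeries
      refine continuous_tsum (u := fun n => ‖cc (aL g) σ n‖) ?_ hsL ?_
      · intro n
        rcases Nat.eq_zero_or_pos n with rfl | hn
        · simp only [LSeries.term_zero]; exact continuous_const
        · have hn' : (n : ℂ) ≠ 0 := by exact_mod_cast hn.ne'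
          have : ∀ ξ : ℝ, LSeries.term (aL g) (σ + 2 * Real.pi * ξ * I) n =
              aL g n / (n : ℂ) ^ ((σ : ℂ) + 2 * Real.pi * ξ * I) := fun ξ => by
            rw [LSeries.term_of_ne_zero hn.ne']
          simp_rw [this]
          refine continuous_const.div ?_ ?_
          · refine Continuous.const_cpow ?_ (Or.inl hn')
            fun_prop
          · intro ξ
            exact Complex.cpow_ne_zero_iff.mpr (Or.inl hn')
      · intro n ξ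
        unfold cc
        rw [LSeries.norm_term_eq, LSeries.norm_term_eq]
        simp
    exact this.measurable
  refine (lintegral_mono hpt).trans ?_
  rw [lintegral_add_left hmeas, lintegral_const_mul' _ _ ENNReal.ofReal_ne_top,
    lintegral_const_mul' _ _ ENNReal.ofReal_ne_top,
    plancherel_FF (aL g) σ σ hσ0 hsL, plancherel_FF (aL g) σ X hX0 hsL,
    ENNReal.ofReal_add (mul_nonneg (sq_nonneg _) (div_nonneg (sq_nonneg _) (by linarith)))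
      (mul_nonneg (by positivity) (add_nonneg (by positivity)
        (div_nonneg (sq_nonneg _) (by linarith)))),
    ENNReal.ofReal_mul (sq_nonneg M), ENNReal.ofReal_mul (p := 2 * Zr σ ^ 2) (by positivity)]
  gcongr
  · exact lintegral_FF_crude (aL g) (norm_aL_le g hg) σ hσ
  · exact lintegral_FF_refined (aL g) (norm_aL_le g hg) η X v₁ hη hX hv₁ h σ hσ hσ2

/-- `(σ-1)³ ∫ |F_T|² → 0` -/
lemma J_small (g : ℕ →*₀ ℂ) (hg : ∀ n, ‖g n‖ ≤ 1) (hnp : NonPret g) (ε : ℝ) (hε : 0 < ε) :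
    ∀ᶠ σ : ℝ in 𝓝[>] 1, ∫⁻ v, ‖FF (aT g) σ σ v‖ₑ ^ 2 ≤ ENNReal.ofReal (ε / (σ - 1) ^ 3) := by
  set η := min 1 (ε / 12) with hη
  have hη0 : 0 < η := lt_min one_pos (by positivity)
  have hη1 : η ^ 2 ≤ ε / 12 := by
    have h1 : η ≤ 1 := min_le_left _ _
    have h2 : η ≤ ε / 12 := min_le_right _ _
    nlinarith
  obtain ⟨X, v₁, hX, hv₁, h⟩ := FF_refined η hη0
  have hC := Cψ_pos
  set m := min 1 (2 * ε / (3 * Cψ ^ 2)) with hm
  have hm0 : 0 < m := lt_min one_pos (by positivity)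
  have hm1 : m ^ 2 * Cψ ^ 2 / 2 ≤ ε / 3 := by
    have h1 : m ≤ 1 := min_le_left _ _
    have h2 : m ≤ 2 * ε / (3 * Cψ ^ 2) := min_le_right _ _
    have h3 : m ^ 2 ≤ 2 * ε / (3 * Cψ ^ 2) := by nlinarith
    rw [le_div_iff₀ (by positivity)] at h3
    nlinarith
  have h1 := uniform_G g hg hnp X m hm0
  have h2 : ∀ᶠ σ : ℝ in 𝓝[>] 1, (σ - 1) * Zr σ ≤ 2 :=
    Zr_tendsto.eventually_le_const (by norm_num)
  have h3 : ∀ᶠ σ : ℝ in 𝓝[>] (1 : ℝ), (σ - 1) * (8 * Cψ ^ 2 * v₁) ≤ ε / 3 := by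
    have : Tendsto (fun σ : ℝ => (σ - 1) * (8 * Cψ ^ 2 * v₁)) (𝓝 1) (𝓝 ((1 - 1) * (8 * Cψ ^ 2 * v₁))) := by
      apply Continuous.tendsto; fun_prop
    rw [sub_self, zero_mul] at this
    exact (this.mono_left nhdsWithin_le_nhds).eventually_le_const (by positivity)
  have h4 : ∀ᶠ σ : ℝ in 𝓝[>] (1 : ℝ), σ ≤ 2 := by
    have : Tendsto (fun σ : ℝ => σ) (𝓝[>] 1) (𝓝 1) := tendsto_id.mono_left nhdsWithin_le_nhds
    exact this.eventually_le_const (by norm_num)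
  filter_upwards [h1, h2, h3, h4, self_mem_nhdsWithin] with σ k1 k2 k3 k4 k5
  rw [Set.mem_Ioi] at k5
  have hc : 0 < σ - 1 := by linarith
  have hM : ∀ ξ ∈ Set.Icc (-X) X, ‖LSeries g (σ + 2 * Real.pi * ξ * I)‖ ≤ m / (σ - 1) := by
    intro ξ hξ
    rw [le_div_iff₀ hc, mul_comm]
    exact k1 ξ hξ
  have hJ := J_bound g hg η X v₁ (m / (σ - 1)) hη0.le hX hv₁
    (fun σ v => h (aL g) (norm_aL_le g hg) σ v) σ k5 k4 (by positivity) hM
  refine hJ.trans (ENNReal.ofReal_le_ofReal ?_)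
  rw [le_div_iff₀ (by positivity)]
  have e1 : ((m / (σ - 1)) ^ 2 * (Cψ ^ 2 / (2 * (σ - 1))) +
      2 * Zr σ ^ 2 * (Cψ ^ 2 * v₁ + η ^ 2 / (2 * (σ - 1)))) * (σ - 1) ^ 3 =
      m ^ 2 * Cψ ^ 2 / 2 + ((σ - 1) * Zr σ) ^ 2 * (2 * (σ - 1) * Cψ ^ 2 * v₁ + η ^ 2) := by
    field_simp
  rw [e1]
  have h5 : ((σ - 1) * Zr σ) ^ 2 ≤ 4 := by
    have h6 : 0 ≤ (σ - 1) * Zr σ := mul_nonneg hc.le (Zr_nonneg σ)
    nlinarith
  have h7 : ((σ - 1) * Zr σ) ^ 2 * (2 * (σ - 1) * Cψ ^ 2 * v₁ + η ^ 2) ≤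
      4 * (2 * (σ - 1) * Cψ ^ 2 * v₁ + η ^ 2) :=
    mul_le_mul_of_nonneg_right h5 (by positivity)
  nlinarith

end Pool.Agent.H489R2
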