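import Mathlib
import Pool.Agent.H489R2.HalF

set_option autoImplicit false

/-!
# Qualitative Halász theorem, part G: conclusion
-/

namespace Pool.Agent.H489R2

open Finset Filter Topology MeasureTheory Complex
open scoped ENNReal ArithmeticFunction

lemma T_eq_sum (g : ℕ → ℂ) (N : ℕ) : ∑ n ∈ Ioc 0 N, aT g n = T g N := rfl

lemma log_succ_sub_log (n : ℕ) (hn : 0 < n) :
    1 / ((n : ℝ) + 1) ≤ Real.log ((n : ℝ) + 1) - Real.log n := by
  have hn' : (0 : ℝ) < n := by exact_mod_cast hn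
  rw [← Real.log_div (by positivity) (by positivity)]
  have h1 := Real.one_sub_inv_le_log_of_pos (show (0 : ℝ) < ((n : ℝ) + 1) / n by positivity)
  refine le_trans (le_of_eq ?_) h1
  field_simp
  ring

lemma sum_inv_succ_le (N : ℕ) : ∑ n ∈ Ioc 0 N, 1 / ((n : ℝ) + 1) ≤ Real.log ((N : ℝ) + 1) := by
  induction N with
  | zero => simp
  | succ N ih =>
    rw [Finset.sum_Ioc_succ_top (Nat.zero_le N)]
    have := log_succ_sub_log (N + 1) (Nat.succ_pos N)
    push_cast at this ⊢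
    linarith

/-- lower bound of the `L²` norm by a discrete sum -/
lemma J_lower (g : ℕ → ℂ) (N : ℕ) (hN : 0 < N) (V : ℝ) (hV : V = Real.log ((N : ℝ) + 1)) :
    ENNReal.ofReal (Real.exp (-2) * ∑ n ∈ Ioc 0 N, ‖T g n‖ ^ 2 / ((n : ℝ) + 1) ^ 3) ≤
      ∫⁻ v, ‖FF (aT g) (1 + 1 / V) (1 + 1 / V) v‖ₑ ^ 2 := by
  have hN' : (1 : ℝ) ≤ N := by exact_mod_cast hN
  have hV0 : 0 < V := by rw [hV]; exact Real.log_pos (by linarith)
  set c : ℕ → ℝ := fun n => ‖T g n‖ ^ 2 * (Real.exp (-2) / ((n : ℝ) + 1) ^ 2) with hc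
  set I : ℕ → Set ℝ := fun n => Set.Ico (Real.log n) (Real.log ((n : ℝ) + 1)) with hI
  have hpt : ∀ v : ℝ, ∑ n ∈ Ioc 0 N, (I n).indicator (fun _ => ENNReal.ofReal (c n)) v ≤
      ‖FF (aT g) (1 + 1 / V) (1 + 1 / V) v‖ₑ ^ 2 := by
    intro v
    by_cases hex : ∃ n ∈ Ioc 0 N, v ∈ I n
    · obtain ⟨n, hn, hv⟩ := hex
      rw [Finset.mem_Ioc] at hn
      have hn' : (0 : ℝ) < n := by exact_mod_cast hn.1
      have hfl : ∀ m : ℕ, 0 < m → v ∈ I m → ⌊Real.exp v⌋₊ = m := by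
        intro m hm hvm
        have hm' : (0 : ℝ) < m := by exact_mod_cast hm
        rw [Nat.floor_eq_iff (Real.exp_pos v).le]
        exact ⟨(Real.log_le_iff_le_exp hm').mp hvm.1,
          (Real.lt_log_iff_exp_lt (by positivity)).mp hvm.2⟩
      rw [Finset.sum_eq_single n]
      · rw [Set.indicator_of_mem hv, enorm_sq_eq]
        apply ENNReal.ofReal_le_ofReal
        rw [FF_self, hfl n hn.1 hv, T_eq_sum, norm_mul, mul_pow, mul_comm]
        show ‖T g n‖ ^ 2 * (Real.exp (-2) / ((n : ℝ) + 1) ^ 2) ≤ _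
        refine mul_le_mul_of_nonneg_left ?_ (by positivity)
        rw [Complex.norm_exp]
        have e1 : (-(((1 + 1 / V : ℝ) : ℂ) * (v : ℂ))).re = -((1 + 1 / V) * v) := by
          rw [← Complex.ofReal_mul, ← Complex.ofReal_neg, Complex.ofReal_re]
        rw [e1, ← Real.exp_nat_mul]
        have hvV : v ≤ V := by
          rw [hV]
          refine hv.2.le.trans (Real.log_le_log (by positivity) ?_)
          have : (n : ℝ) ≤ N := by exact_mod_cast hn.2
          linarith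
        have e2 : ((n : ℝ) + 1) ^ 2 = Real.exp (2 * Real.log ((n : ℝ) + 1)) := by
          rw [mul_comm, Real.exp_mul, Real.exp_log (by positivity)]
          norm_cast
        rw [e2, ← Real.exp_sub]
        apply Real.exp_le_exp.mpr
        have e3 : v / V ≤ 1 := (div_le_one hV0).mpr hvV
        have e4 : v ≤ Real.log ((n : ℝ) + 1) := hv.2.le
        have e5 : (1 + 1 / V) * v = v + v / V := by ring
        rw [e5]
        push_cast
        linarith
      · intro m hm hmn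
        rw [Set.indicator_of_notMem]
        intro hvm
        exact hmn ((hfl m (Finset.mem_Ioc.mp hm).1 hvm).symm.trans (hfl n hn.1 hv))
      · intro h
        exact absurd (Finset.mem_Ioc.mpr hn) h
    · push Not at hex
      rw [Finset.sum_eq_zero]
      · exact bot_le
      · intro n hn
        rw [Set.indicator_of_notMem (hex n hn)]
  refine le_trans ?_ (lintegral_mono hpt)
  rw [lintegral_finsetSum _ fun n _ => (measurable_const).indicator measurableSet_Ico]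
  rw [Finset.mul_sum, ENNReal.ofReal_sum_of_nonneg (fun n _ => by positivity)]
  refine Finset.sum_le_sum fun n hn => ?_
  rw [lintegral_indicator_const measurableSet_Ico, Real.volume_Ico, ← ENNReal.ofReal_mul
    (by positivity)]
  apply ENNReal.ofReal_le_ofReal
  have hn1 := (Finset.mem_Ioc.mp hn).1
  calc Real.exp (-2) * (‖T g n‖ ^ 2 / ((n : ℝ) + 1) ^ 3)
      = c n * (1 / ((n : ℝ) + 1)) := by rw [hc]; field_simp
    _ ≤ c n * (Real.log ((n : ℝ) + 1) - Real.log n) :=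
        mul_le_mul_of_nonneg_left (log_succ_sub_log n hn1) (by positivity)

/-- The discrete second moment of `T` is small. -/
lemma T_small (g : ℕ →*₀ ℂ) (hg : ∀ n, ‖g n‖ ≤ 1) (hnp : NonPret g) (ε : ℝ) (hε : 0 < ε) :
    ∀ᶠ N : ℕ in atTop, ∑ n ∈ Ioc 0 N, ‖T g n‖ ^ 2 / ((n : ℝ) + 1) ^ 3 ≤
      ε * Real.log ((N : ℝ) + 1) ^ 3 := by
  have h1 := J_small g hg hnp (Real.exp (-2) * ε) (by positivity)
  have hlog : Tendsto (fun N : ℕ => Real.log ((N : ℝ) + 1)) atTop atTop :=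
    Real.tendsto_log_atTop.comp (tendsto_atTop_add_const_right _ 1 tendsto_natCast_atTop_atTop)
  have hσ : Tendsto (fun N : ℕ => 1 + 1 / Real.log ((N : ℝ) + 1)) atTop (𝓝[>] 1) := by
    rw [tendsto_nhdsWithin_iff]
    constructor
    · have := (tendsto_const_nhds (x := (1 : ℝ))).add (hlog.inv_tendsto_atTop)
      simpa using this
    · filter_upwards [eventually_ge_atTop 1] with N hN
      have hN' : (1 : ℝ) ≤ N := by exact_mod_cast hN
      have : 0 < Real.log ((N : ℝ) + 1) := Real.log_pos (by linarith)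
      simp only [Set.mem_Ioi]
      have : 0 < 1 / Real.log ((N : ℝ) + 1) := by positivity
      linarith
  filter_upwards [hσ.eventually h1, eventually_ge_atTop 1] with N hN1 hN
  have hN' : (1 : ℝ) ≤ N := by exact_mod_cast hN
  have hV0 : 0 < Real.log ((N : ℝ) + 1) := Real.log_pos (by linarith)
  have h2 := (J_lower g N hN _ rfl).trans hN1
  have e1 : (1 + 1 / Real.log ((N : ℝ) + 1) - 1) = 1 / Real.log ((N : ℝ) + 1) := by ring
  rw [e1, ENNReal.ofReal_le_ofReal_iff (by positivity)] at h2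
  have e2 : Real.exp (-2) * ε / (1 / Real.log ((N : ℝ) + 1)) ^ 3 =
      Real.exp (-2) * (ε * Real.log ((N : ℝ) + 1) ^ 3) := by
    field_simp
  rw [e2] at h2
  exact le_of_mul_le_mul_left h2 (Real.exp_pos _)

/-- The averaged sum is small. -/
lemma I_small (g : ℕ →*₀ ℂ) (hg : ∀ n, ‖g n‖ ≤ 1) (hnp : NonPret g) (ε : ℝ) (hε : 0 < ε) :
    ∀ᶠ N : ℕ in atTop, ∑ n ∈ Ioc 0 N, ‖S g n‖ * (1 / (n : ℝ) - 1 / ((n : ℝ) + 1)) ≤
      3 * ε * Real.log ((N : ℝ) + 1) + 1 + 1 / ε := by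
  filter_upwards [T_small g hg hnp (ε ^ 4) (by positivity), eventually_ge_atTop 1] with N hT hN
  have hN' : (1 : ℝ) ≤ N := by exact_mod_cast hN
  set V := Real.log ((N : ℝ) + 1) with hV
  have hV0 : 0 < V := Real.log_pos (by linarith)
  set M := ⌊Real.exp (ε * V)⌋₊ with hM
  have hexp1 : 1 ≤ Real.exp (ε * V) := Real.one_le_exp (by positivity)
  have hpt : ∀ n ∈ Ioc 0 N, ‖S g n‖ * (1 / (n : ℝ) - 1 / ((n : ℝ) + 1)) ≤
      (if n ≤ M then 1 / ((n : ℝ) + 1) else 0) + (ε + 1 / (ε * V)) * (1 / ((n : ℝ) + 1)) +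
        1 / (ε ^ 3 * V ^ 2) * (‖T g n‖ ^ 2 / ((n : ℝ) + 1) ^ 3) := by
    intro n hn
    rw [Finset.mem_Ioc] at hn
    have hn' : (1 : ℝ) ≤ n := by exact_mod_cast hn.1
    have hw : 1 / (n : ℝ) - 1 / ((n : ℝ) + 1) = 1 / ((n : ℝ) * ((n : ℝ) + 1)) := by
      field_simp; ring
    rw [hw]
    have p2 : 0 ≤ (ε + 1 / (ε * V)) * (1 / ((n : ℝ) + 1)) := by positivity
    have p3 : 0 ≤ 1 / (ε ^ 3 * V ^ 2) * (‖T g n‖ ^ 2 / ((n : ℝ) + 1) ^ 3) := by positivity
    split_ifs with hnM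
    · have h1 := norm_S_le g hg n
      have h2 : ‖S g n‖ * (1 / ((n : ℝ) * ((n : ℝ) + 1))) ≤ 1 / ((n : ℝ) + 1) := by
        calc ‖S g n‖ * (1 / ((n : ℝ) * ((n : ℝ) + 1))) ≤ n * (1 / ((n : ℝ) * ((n : ℝ) + 1))) := by
              gcongr
          _ = 1 / ((n : ℝ) + 1) := by field_simp
      linarith
    · have h3 : ε * V < Real.log n := by
        have h4 : M < n := not_le.mp hnM
        rw [hM, Nat.floor_lt (Real.exp_pos _).le] at h4
        rwa [Real.lt_log_iff_exp_lt (by positivity)]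
      have hεV : 0 < ε * V := by positivity
      have h5 := norm_S_mul_log_le' g hg n
      have h6 : ‖S g n‖ ≤ (‖T g n‖ + n) / (ε * V) := by
        rw [le_div_iff₀ hεV]
        refine le_trans (mul_le_mul_of_nonneg_left h3.le (norm_nonneg _)) h5
      -- set y = ‖T‖ / (n+1)
      set t := ‖T g n‖ with ht
      have ht0 : 0 ≤ t := norm_nonneg _
      have h7 : t * (1 / ((n : ℝ) * ((n : ℝ) + 1))) ≤
          ε ^ 2 * V * (1 / ((n : ℝ) + 1)) + 1 / (ε ^ 2 * V) * (t ^ 2 / ((n : ℝ) + 1) ^ 3) := by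
        have h8 : 1 / ((n : ℝ) * ((n : ℝ) + 1)) ≤ 2 / ((n : ℝ) + 1) ^ 2 := by
          rw [div_le_div_iff₀ (by positivity) (by positivity)]
          nlinarith
        have h9 : 2 * (t / ((n : ℝ) + 1)) ≤ ε ^ 2 * V + 1 / (ε ^ 2 * V) * (t / ((n : ℝ) + 1)) ^ 2 := by
          set y := t / ((n : ℝ) + 1)
          have hk : 0 < ε ^ 2 * V := by positivity
          have h10 : ε ^ 2 * V + 1 / (ε ^ 2 * V) * y ^ 2 - 2 * y =
              (ε ^ 2 * V - y) ^ 2 / (ε ^ 2 * V) := by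
            field_simp; ring
          have h11 : 0 ≤ (ε ^ 2 * V - y) ^ 2 / (ε ^ 2 * V) := by positivity
          linarith
        calc t * (1 / ((n : ℝ) * ((n : ℝ) + 1))) ≤ t * (2 / ((n : ℝ) + 1) ^ 2) := by gcongr
          _ = 2 * (t / ((n : ℝ) + 1)) * (1 / ((n : ℝ) + 1)) := by field_simp
          _ ≤ (ε ^ 2 * V + 1 / (ε ^ 2 * V) * (t / ((n : ℝ) + 1)) ^ 2) * (1 / ((n : ℝ) + 1)) := by
              gcongr
          _ = _ := by field_simp
      calc ‖S g n‖ * (1 / ((n : ℝ) * ((n : ℝ) + 1)))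
          ≤ ((t + n) / (ε * V)) * (1 / ((n : ℝ) * ((n : ℝ) + 1))) := by gcongr
        _ = 1 / (ε * V) * (t * (1 / ((n : ℝ) * ((n : ℝ) + 1)))) +
            1 / (ε * V) * (1 / ((n : ℝ) + 1)) := by field_simp
        _ ≤ 1 / (ε * V) * (ε ^ 2 * V * (1 / ((n : ℝ) + 1)) +
              1 / (ε ^ 2 * V) * (t ^ 2 / ((n : ℝ) + 1) ^ 3)) +
            1 / (ε * V) * (1 / ((n : ℝ) + 1)) := by gcongr
        _ = 0 + (ε + 1 / (ε * V)) * (1 / ((n : ℝ) + 1)) +
            1 / (ε ^ 3 * V ^ 2) * (t ^ 2 / ((n : ℝ) + 1) ^ 3) := by field_simp; ring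
  refine (Finset.sum_le_sum hpt).trans ?_
  rw [Finset.sum_add_distrib, Finset.sum_add_distrib, ← Finset.mul_sum, ← Finset.mul_sum]
  have h1 : ∑ n ∈ Ioc 0 N, (if n ≤ M then 1 / ((n : ℝ) + 1) else 0) ≤ ε * V + 1 := by
    rw [← Finset.sum_filter]
    have h2 : (Ioc 0 N).filter (fun n => n ≤ M) ⊆ Ioc 0 M := by
      intro n hn
      simp only [Finset.mem_filter, Finset.mem_Ioc] at hn ⊢
      exact ⟨hn.1.1, hn.2⟩
    refine (Finset.sum_le_sum_of_subset_of_nonneg h2 fun n _ _ => by positivity).trans ?_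
    refine (sum_inv_succ_le M).trans ?_
    have h3 : (M : ℝ) ≤ Real.exp (ε * V) := Nat.floor_le (Real.exp_pos _).le
    have h4 : (M : ℝ) + 1 ≤ Real.exp (ε * V + 1) := by
      rw [Real.exp_add]
      have := Real.exp_one_gt_d9
      nlinarith
    calc Real.log ((M : ℝ) + 1) ≤ Real.log (Real.exp (ε * V + 1)) :=
          Real.log_le_log (by positivity) h4
      _ = ε * V + 1 := Real.log_exp _
  have h2 := sum_inv_succ_le N
  have h3 : (ε + 1 / (ε * V)) * ∑ n ∈ Ioc 0 N, 1 / ((n : ℝ) + 1) ≤ (ε + 1 / (ε * V)) * V := by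
    gcongr
  have h4 : 1 / (ε ^ 3 * V ^ 2) * ∑ n ∈ Ioc 0 N, ‖T g n‖ ^ 2 / ((n : ℝ) + 1) ^ 3 ≤
      1 / (ε ^ 3 * V ^ 2) * (ε ^ 4 * V ^ 3) := by gcongr
  have e3 : (ε + 1 / (ε * V)) * V = ε * V + 1 / ε := by field_simp
  have e4 : 1 / (ε ^ 3 * V ^ 2) * (ε ^ 4 * V ^ 3) = ε * V := by field_simp
  rw [e3] at h3
  rw [e4] at h4
  linarith

/-- **Qualitative Halász theorem** for completely multiplicative functions with values in the unit
disc: a function which does not pretend to be any `n^{it}` has mean value `0`. -/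
theorem halasz (g : ℕ →*₀ ℂ) (hg : ∀ n, ‖g n‖ ≤ 1) (hnp : NonPret g) :
    Tendsto (fun N : ℕ => (∑ n ∈ Ioc 0 N, g n) / N) atTop (𝓝 0) := by
  rw [Metric.tendsto_atTop']
  intro ε₀ hε₀
  set ε := ε₀ / 6 with hε
  have hε0 : 0 < ε := by positivity
  obtain ⟨C, hC0, hC⟩ := key_ineq g hg ε hε0
  have h1 := I_small g hg hnp ε hε0
  have hlog : Tendsto (fun N : ℕ => Real.log (N : ℝ)) atTop atTop :=
    Real.tendsto_log_atTop.comp tendsto_natCast_atTop_atTop
  have h2 : ∀ᶠ N : ℕ in atTop, (3 * ε + 1 + 1 / ε + C) / ε < Real.log (N : ℝ) :=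
    hlog.eventually_gt_atTop _
  have h3 := h1.and (h2.and (eventually_ge_atTop 2))
  rw [Filter.eventually_atTop] at h3
  obtain ⟨N₀, hN₀⟩ := h3
  refine ⟨N₀, fun N hN => ?_⟩
  obtain ⟨k1, k2, k3⟩ := hN₀ N hN.le
  have hN' : (2 : ℝ) ≤ N := by exact_mod_cast k3
  have hl0 : 0 < Real.log N := Real.log_pos (by linarith)
  have hl1 : Real.log ((N : ℝ) + 1) ≤ Real.log N + 1 := by
    have h4 : (N : ℝ) + 1 ≤ N * Real.exp 1 := by
      have := Real.exp_one_gt_d9
      nlinarith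
    calc Real.log ((N : ℝ) + 1) ≤ Real.log (N * Real.exp 1) := Real.log_le_log (by positivity) h4
      _ = Real.log N + 1 := by rw [Real.log_mul (by positivity) (Real.exp_pos _).ne', Real.log_exp]
  have h5 := hC N (by omega)
  rw [dist_zero_right, norm_div, Complex.norm_natCast]
  have h6 : ‖S g N‖ / N * Real.log N < ε₀ * Real.log N := by
    rw [div_lt_iff₀ hε0] at k2
    have h7 : 3 * ε * Real.log ((N : ℝ) + 1) ≤ 3 * ε * (Real.log N + 1) := by gcongr
    have h8 : ε₀ = 6 * ε := by rw [hε]; ring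
    rw [h8]
    nlinarith
  exact lt_of_mul_lt_mul_right h6 hl0.le

end Pool.Agent.H489R2
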