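import Mathlib
import Pool.Agent.H489R2.HalE

set_option autoImplicit false

/-!
# `n ↦ n^{iτ}`, `τ ≠ 0`, does not pretend to be `1`
-/

namespace Pool.Agent.H489R2

open Finset Filter Topology MeasureTheory Complex

lemma norm_one_le (n : ℕ) : ‖(1 : ℕ →*₀ ℂ) n‖ ≤ 1 := by
  rcases eq_or_ne n 0 with rfl | hn
  · simp
  · rw [MonoidWithZeroHom.one_apply_of_ne_zero hn]; simp

lemma LSeries_one_eq (s : ℂ) (hs : 1 < s.re) : LSeries (1 : ℕ →*₀ ℂ) s = riemannZeta s := by
  rw [← LSeries_one_eq_riemannZeta hs]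
  refine LSeries_congr (fun {n} hn => ?_) s
  rw [MonoidWithZeroHom.one_apply_of_ne_zero hn]
  rfl

theorem not_summable_cos (τ : ℝ) (hτ : τ ≠ 0) :
    ¬ Summable fun p : Nat.Primes => (1 - (((p : ℕ) : ℂ) ^ (-(τ * I))).re) / ((p : ℕ) : ℝ) := by
  intro hsum
  set g := (1 : ℕ →*₀ ℂ) with hg
  have hg1 : ∀ n, ‖g n‖ ≤ 1 := norm_one_le
  set ξ := τ / (2 * Real.pi) with hξ
  have hξτ : (2 * Real.pi * ξ : ℂ) = τ := by
    rw [hξ]; push_cast
    have : (Real.pi : ℂ) ≠ 0 := by exact_mod_cast Real.pi_ne_zero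
    field_simp
  have hE1 : ∀ p : Nat.Primes, (1 - (((p : ℕ) : ℂ) ^ (-(τ * I))).re) / ((p : ℕ) : ℝ) =
      eterm g 1 ξ p := by
    intro p
    unfold eterm
    rw [MonoidWithZeroHom.one_apply_of_ne_zero p.2.ne_zero, one_mul, hξτ, Real.rpow_neg_one,
      div_eq_mul_inv]
  simp_rw [hE1] at hsum
  set K := ∑' p, eterm g 1 ξ p with hK
  have hmono : ∀ σ : ℝ, 1 < σ → ∑' p, eterm g σ ξ p ≤ K := by
    intro σ hσ
    refine (summable_eterm g hg1 σ ξ hσ).tsum_le_tsum (fun p => ?_) hsum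
    unfold eterm
    refine mul_le_mul_of_nonneg_left ?_ (eterm_factor g hg1 ξ p).1
    have h1 : (1 : ℝ) ≤ ((p : ℕ) : ℝ) := by exact_mod_cast p.2.one_lt.le
    exact Real.rpow_le_rpow_of_exponent_le h1 (by linarith)
  have key : ∀ σ : ℝ, 1 < σ → Real.exp (-K - 2 * C2) * ((σ - 1) * ‖riemannZeta σ‖) ≤
      (σ - 1) * ‖riemannZeta (σ + τ * I)‖ := by
    intro σ hσ
    have hs : (1 : ℝ) < ((σ : ℂ) + 2 * Real.pi * ξ * I).re := by simpa using hσ
    have hs1 : (1 : ℝ) < (σ : ℂ).re := by simpa using hσ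
    have h1 := (norm_LSeries_bounds g hg1 _ hs).1
    simp_rw [eterm_eq] at h1
    rw [(Nat.Primes.summable_rpow.mpr (show -σ < -1 by linarith)).tsum_sub
      (summable_eterm g hg1 σ ξ hσ), LSeries_one_eq _ hs, hξτ] at h1
    have h2 := (norm_LSeries_bounds g hg1 σ hs1).2
    have h4 : ∀ p : Nat.Primes, (g (p : ℕ) * ((p : ℕ) : ℂ) ^ (-(σ : ℂ))).re =
        ((p : ℕ) : ℝ) ^ (-σ) := by
      intro p
      rw [MonoidWithZeroHom.one_apply_of_ne_zero p.2.ne_zero, one_mul]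
      have h2 : ((p : ℕ) : ℂ) ^ (-(σ : ℂ)) = ((((p : ℕ) : ℝ) ^ (-σ) : ℝ) : ℂ) := by
        rw [Complex.ofReal_cpow (by positivity)]; simp
      rw [h2, Complex.ofReal_re]
    simp_rw [h4] at h2
    rw [LSeries_one_eq _ hs1] at h2
    have h3 := hmono σ hσ
    have h5 : Real.exp (-K - 2 * C2) * ‖riemannZeta σ‖ ≤ ‖riemannZeta (σ + τ * I)‖ := by
      calc Real.exp (-K - 2 * C2) * ‖riemannZeta σ‖
          ≤ Real.exp (-K - 2 * C2) * Real.exp (∑' p : Nat.Primes, ((p : ℕ) : ℝ) ^ (-σ) + C2) := by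
            gcongr
        _ = Real.exp (∑' p : Nat.Primes, ((p : ℕ) : ℝ) ^ (-σ) - K - C2) := by
            rw [← Real.exp_add]; congr 1; ring
        _ ≤ Real.exp (∑' p : Nat.Primes, ((p : ℕ) : ℝ) ^ (-σ) - ∑' p, eterm g σ ξ p - C2) := by
            apply Real.exp_le_exp.mpr; linarith
        _ ≤ _ := h1
    calc Real.exp (-K - 2 * C2) * ((σ - 1) * ‖riemannZeta σ‖)
        = (σ - 1) * (Real.exp (-K - 2 * C2) * ‖riemannZeta σ‖) := by ring
      _ ≤ _ := mul_le_mul_of_nonneg_left h5 (by linarith)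
  have t0 : Tendsto (fun σ : ℝ => (σ : ℂ)) (𝓝[>] 1) (𝓝[≠] 1) := by
    rw [tendsto_nhdsWithin_iff]
    constructor
    · exact (Complex.continuous_ofReal.tendsto 1).mono_left nhdsWithin_le_nhds
    · filter_upwards [self_mem_nhdsWithin] with σ hσ
      rw [Set.mem_Ioi] at hσ
      simp only [Set.mem_compl_iff, Set.mem_singleton_iff]
      intro h
      have : σ = 1 := by exact_mod_cast h
      linarith
  have t1 : Tendsto (fun σ : ℝ => (σ - 1) * ‖riemannZeta σ‖) (𝓝[>] 1) (𝓝 1) := by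
    have h1 := (riemannZeta_residue_one.comp t0).norm
    rw [norm_one] at h1
    refine h1.congr' ?_
    filter_upwards [self_mem_nhdsWithin] with σ hσ
    rw [Set.mem_Ioi] at hσ
    simp only [Function.comp_apply, norm_mul]
    congr 1
    rw [← Complex.ofReal_one, ← Complex.ofReal_sub, Complex.norm_real,
      Real.norm_of_nonneg (by linarith)]
  have t2 : Tendsto (fun σ : ℝ => (σ - 1) * ‖riemannZeta (σ + τ * I)‖) (𝓝[>] 1) (𝓝 0) := by
    have hne : (1 : ℂ) + τ * I ≠ 1 := by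
      intro h
      have := congrArg Complex.im h
      simp at this
      exact hτ this
    have h1 : ContinuousAt (fun σ : ℝ => riemannZeta (σ + τ * I)) 1 := by
      have h2 : ContinuousAt riemannZeta ((1 : ℝ) + τ * I : ℂ) := by
        have := (differentiableAt_riemannZeta (s := (1 : ℂ) + τ * I) hne).continuousAt
        simpa using this
      have h3 : ContinuousAt (fun σ : ℝ => ((σ : ℂ) + τ * I)) 1 := by
        apply Continuous.continuousAt; fun_prop
      exact ContinuousAt.comp (f := fun σ : ℝ => ((σ : ℂ) + τ * I)) h2 h3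
    have h4 : Tendsto (fun σ : ℝ => (σ - 1) * ‖riemannZeta (σ + τ * I)‖) (𝓝 1)
        (𝓝 ((1 - 1) * ‖riemannZeta ((1 : ℝ) + τ * I)‖)) := by
      refine Tendsto.mul ?_ h1.norm
      apply Continuous.tendsto; fun_prop
    rw [sub_self, zero_mul] at h4
    exact h4.mono_left nhdsWithin_le_nhds
  have t3 := t1.const_mul (Real.exp (-K - 2 * C2))
  have h6 := le_of_tendsto_of_tendsto t3 t2 (by
    filter_upwards [self_mem_nhdsWithin] with σ hσ
    exact key σ hσ)
  have h7 := Real.exp_pos (-K - 2 * C2)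
  linarith

end Pool.Agent.H489R2
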