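import Mathlib
import Pool.Agent.H489R2.HalG
import Pool.Agent.H489R2.HalH
import Pool.Agent.H489R2.Dens
import Pool.Agent.H489R2.Dual

set_option autoImplicit false

/-!
# Completely multiplicative functions with values in an abelian group have densities
-/

namespace Pool.Agent.H489R2

open Filter Topology MeasureTheory Complex
open scoped Pointwise

variable {A : Type*} [CommGroup A] [TopologicalSpace A] [DiscreteTopology A]

/-- the terms of the pretentious distance of `χ ∘ f` and `n^{iτ}` -/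
noncomputable def ter (f : ℕ → A) (χ : PontryaginDual A) (τ : ℝ) (p : Nat.Primes) : ℝ :=
  (1 - (((χ (f (p : ℕ)) : Circle) : ℂ) * ((p : ℕ) : ℂ) ^ (-(τ * I))).re) / ((p : ℕ) : ℝ)

lemma norm_cpow_I (p : Nat.Primes) (τ : ℝ) : ‖((p : ℕ) : ℂ) ^ (-(τ * I))‖ = 1 := by
  rw [Complex.norm_natCast_cpow_of_pos p.2.pos]
  simp

/-- `p^{-iτ}` as an element of the circle -/
noncomputable def pc (p : Nat.Primes) (τ : ℝ) : Circle :=
  ⟨((p : ℕ) : ℂ) ^ (-(τ * I)), by
    rw [Submonoid.unitSphere, ← SetLike.mem_coe]; simpa using norm_cpow_I p τ⟩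

lemma pc_coe (p : Nat.Primes) (τ : ℝ) : ((pc p τ : Circle) : ℂ) = ((p : ℕ) : ℂ) ^ (-(τ * I)) := rfl

lemma pc_zero (p : Nat.Primes) : pc p 0 = 1 := by
  ext; rw [pc_coe]; simp

lemma pc_add (p : Nat.Primes) (s t : ℝ) : pc p (s + t) = pc p s * pc p t := by
  ext
  rw [Circle.coe_mul, pc_coe, pc_coe, pc_coe,
    ← Complex.cpow_add _ _ (by exact_mod_cast p.2.ne_zero)]
  congr 1
  push_cast
  ring

lemma pc_neg (p : Nat.Primes) (t : ℝ) : pc p (-t) = (pc p t)⁻¹ := by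
  rw [eq_inv_iff_mul_eq_one, ← pc_add, neg_add_cancel, pc_zero]

omit [DiscreteTopology A] in
lemma ter_eq (f : ℕ → A) (χ : PontryaginDual A) (τ : ℝ) (p : Nat.Primes) :
    ter f χ τ p = (1 - ((χ (f (p : ℕ)) * pc p τ : Circle) : ℂ).re) / ((p : ℕ) : ℝ) := by
  unfold ter
  rw [Circle.coe_mul, pc_coe]

lemma re_le_one (z : Circle) : (z : ℂ).re ≤ 1 := by
  have := (Complex.re_le_norm (z : ℂ)).trans (Circle.norm_coe z).le
  exact this

omit [DiscreteTopology A] in
lemma ter_nonneg (f : ℕ → A) (χ : PontryaginDual A) (τ : ℝ) (p : Nat.Primes) :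
    0 ≤ ter f χ τ p := by
  rw [ter_eq]
  have := re_le_one (χ (f (p : ℕ)) * pc p τ)
  exact div_nonneg (by linarith) (Nat.cast_nonneg _)

lemma circle_ineq (z w : Circle) :
    1 - ((z * w : Circle) : ℂ).re ≤ 2 * (1 - (z : ℂ).re) + 2 * (1 - (w : ℂ).re) := by
  have hz : (z : ℂ).re ^ 2 + (z : ℂ).im ^ 2 = 1 := by
    have := Circle.normSq_coe z
    rw [Complex.normSq_apply] at this
    nlinarith
  have hw : (w : ℂ).re ^ 2 + (w : ℂ).im ^ 2 = 1 := by
    have := Circle.normSq_coe w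
    rw [Complex.normSq_apply] at this
    nlinarith
  rw [Circle.coe_mul, Complex.mul_re]
  nlinarith [sq_nonneg ((z : ℂ).re + (w : ℂ).re - 2), sq_nonneg ((z : ℂ).im - (w : ℂ).im),
    sq_nonneg ((z : ℂ).im + (w : ℂ).im), sq_nonneg ((z : ℂ).re - (w : ℂ).re)]

omit [DiscreteTopology A] in
lemma ter_mul (f : ℕ → A) (χ ψ : PontryaginDual A) (s t : ℝ) (p : Nat.Primes) :
    ter f (χ * ψ) (s + t) p ≤ 2 * ter f χ s p + 2 * ter f ψ t p := by
  rw [ter_eq, ter_eq, ter_eq, char_mul', pc_add]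
  have h1 : χ (f (p : ℕ)) * ψ (f (p : ℕ)) * (pc p s * pc p t) =
      (χ (f (p : ℕ)) * pc p s) * (ψ (f (p : ℕ)) * pc p t) := by
    rw [mul_mul_mul_comm]
  rw [h1]
  have h2 := circle_ineq (χ (f (p : ℕ)) * pc p s) (ψ (f (p : ℕ)) * pc p t)
  rw [mul_div_assoc', mul_div_assoc', ← add_div]
  exact div_le_div_of_nonneg_right h2 (Nat.cast_nonneg _)

omit [DiscreteTopology A] in
lemma ter_inv (f : ℕ → A) (χ : PontryaginDual A) (s : ℝ) (p : Nat.Primes) :
    ter f (χ⁻¹) (-s) p = ter f χ s p := by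
  rw [ter_eq, ter_eq, char_inv', pc_neg, ← mul_inv]
  congr 2
  rw [Circle.coe_inv_eq_conj, Complex.conj_re]

omit [DiscreteTopology A] in
lemma ter_one (f : ℕ → A) (p : Nat.Primes) : ter f 1 0 p = 0 := by
  rw [ter_eq, char_one', pc_zero]
  simp

omit [DiscreteTopology A] in
lemma ter_one_fun (f : ℕ → A) : ter f 1 0 = 0 := funext (ter_one f)

omit [DiscreteTopology A] in
lemma ter_inv_fun (f : ℕ → A) (χ : PontryaginDual A) (s : ℝ) :
    ter f (χ⁻¹) (-s) = ter f χ s := funext (ter_inv f χ s)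

/-- sets of bounded distance -/
def CK (f : ℕ → A) (K : ℝ) : Set (PontryaginDual A) :=
  {χ | ∃ τ ∈ Set.Icc (-K) K, ∀ F : Finset Nat.Primes, ∑ p ∈ F, ter f χ τ p ≤ K}

lemma isClosed_CK (f : ℕ → A) (K : ℝ) : IsClosed (CK f K) := by
  have h1 : IsClosed {z : PontryaginDual A × ℝ | z.2 ∈ Set.Icc (-K) K ∧
      ∀ F : Finset Nat.Primes, ∑ p ∈ F, ter f z.1 z.2 p ≤ K} := by
    have h2 : IsClosed {z : PontryaginDual A × ℝ | z.2 ∈ Set.Icc (-K) K} :=
      isClosed_Icc.preimage continuous_snd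
    have h3 : IsClosed {z : PontryaginDual A × ℝ |
        ∀ F : Finset Nat.Primes, ∑ p ∈ F, ter f z.1 z.2 p ≤ K} := by
      have : {z : PontryaginDual A × ℝ | ∀ F : Finset Nat.Primes, ∑ p ∈ F, ter f z.1 z.2 p ≤ K} =
          ⋂ F : Finset Nat.Primes, {z | ∑ p ∈ F, ter f z.1 z.2 p ≤ K} := by
        ext z; simp
      rw [this]
      refine isClosed_iInter fun F => ?_
      refine isClosed_le ?_ continuous_const
      refine continuous_finsetSum _ fun p _ => ?_
      unfold ter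
      have hp : ((p : ℕ) : ℂ) ≠ 0 := by exact_mod_cast p.2.ne_zero
      refine Continuous.div_const ?_ _
      refine continuous_const.sub ?_
      refine Complex.continuous_re.comp ?_
      refine ((continuous_charC _).comp continuous_fst).mul ?_
      refine Continuous.const_cpow ?_ (Or.inl hp)
      fun_prop
    exact h2.inter h3
  have h4 : CK f K = Prod.fst '' ({z : PontryaginDual A × ℝ | z.2 ∈ Set.Icc (-K) K ∧
      ∀ F : Finset Nat.Primes, ∑ p ∈ F, ter f z.1 z.2 p ≤ K}) := by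
    ext χ
    constructor
    · rintro ⟨τ, hτ, h⟩
      exact ⟨(χ, τ), ⟨hτ, h⟩, rfl⟩
    · rintro ⟨⟨χ', τ⟩, ⟨hτ, h⟩, rfl⟩
      exact ⟨τ, hτ, h⟩
  rw [h4]
  apply IsCompact.isClosed
  apply IsCompact.image _ continuous_fst
  have h5 : IsCompact ((Set.univ : Set (PontryaginDual A)) ×ˢ Set.Icc (-K) K) :=
    isCompact_univ.prod isCompact_Icc
  refine h5.of_isClosed_subset h1 ?_
  rintro ⟨χ, τ⟩ ⟨hτ, _⟩
  exact ⟨Set.mem_univ _, hτ⟩

/-- the subgroup of pretentious characters -/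
def Gam (f : ℕ → A) : Subgroup (PontryaginDual A) where
  carrier := {χ | ∃ τ : ℝ, Summable (ter f χ τ)}
  mul_mem' := by
    rintro χ ψ ⟨s, hs⟩ ⟨t, ht⟩
    exact ⟨s + t, Summable.of_nonneg_of_le (ter_nonneg f _ _) (ter_mul f χ ψ s t)
      ((hs.mul_left 2).add (ht.mul_left 2))⟩
  one_mem' := ⟨0, by rw [ter_one_fun]; exact summable_zero⟩
  inv_mem' := by
    rintro χ ⟨s, hs⟩
    refine ⟨-s, ?_⟩
    rw [ter_inv_fun]
    exact hs

omit [DiscreteTopology A] in
lemma mem_Gam (f : ℕ → A) (χ : PontryaginDual A) :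
    χ ∈ Gam f ↔ ∃ τ : ℝ, Summable (ter f χ τ) := Iff.rfl

omit [DiscreteTopology A] in
lemma CK_subset (f : ℕ → A) (K : ℝ) : CK f K ⊆ Gam f := by
  rintro χ ⟨τ, _, h⟩
  exact ⟨τ, summable_of_sum_le (ter_nonneg f χ τ) h⟩

omit [DiscreteTopology A] in
lemma CK_mono (f : ℕ → A) (K L : ℝ) (h : K ≤ L) : CK f K ⊆ CK f L := by
  rintro χ ⟨τ, hτ, h'⟩
  exact ⟨τ, ⟨by linarith [hτ.1], by linarith [hτ.2]⟩, fun F => (h' F).trans h⟩

omit [DiscreteTopology A] in
lemma Gam_eq_iUnion (f : ℕ → A) : (Gam f : Set (PontryaginDual A)) = ⋃ K : ℕ, CK f K := by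
  ext χ
  rw [Set.mem_iUnion]
  constructor
  · rintro ⟨τ, hs⟩
    obtain ⟨K, hK⟩ := exists_nat_ge (max |τ| (∑' p, ter f χ τ p))
    refine ⟨K, τ, abs_le.mp ((le_max_left _ _).trans hK), fun F => ?_⟩
    exact (hs.sum_le_tsum F fun p _ => ter_nonneg f χ τ p).trans ((le_max_right _ _).trans hK)
  · rintro ⟨K, hK⟩
    exact CK_subset f K hK

omit [DiscreteTopology A] in
lemma CK_mul (f : ℕ → A) (K L : ℝ) (χ ψ : PontryaginDual A) (hχ : χ ∈ CK f K) (hψ : ψ ∈ CK f L) :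
    χ * ψ ∈ CK f (2 * (K + L)) := by
  obtain ⟨s, hs, h1⟩ := hχ
  obtain ⟨t, ht, h2⟩ := hψ
  have hK : 0 ≤ K := by simpa using h1 ∅
  have hL : 0 ≤ L := by simpa using h2 ∅
  refine ⟨s + t, ⟨by linarith [hs.1, ht.1], by linarith [hs.2, ht.2]⟩, fun F => ?_⟩
  calc ∑ p ∈ F, ter f (χ * ψ) (s + t) p ≤ ∑ p ∈ F, (2 * ter f χ s p + 2 * ter f ψ t p) :=
        Finset.sum_le_sum fun p _ => ter_mul f χ ψ s t p
    _ = 2 * ∑ p ∈ F, ter f χ s p + 2 * ∑ p ∈ F, ter f ψ t p := by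
        rw [Finset.sum_add_distrib, ← Finset.mul_sum, ← Finset.mul_sum]
    _ ≤ 2 * (K + L) := by linarith [h1 F, h2 F]

omit [DiscreteTopology A] in
lemma CK_inv (f : ℕ → A) (K : ℝ) (χ : PontryaginDual A) (hχ : χ ∈ CK f K) : χ⁻¹ ∈ CK f K := by
  obtain ⟨s, hs, h1⟩ := hχ
  refine ⟨-s, ⟨by linarith [hs.2], by linarith [hs.1]⟩, fun F => ?_⟩
  simp_rw [ter_inv]
  exact h1 F

omit [DiscreteTopology A] in
lemma ter_one_eq (f : ℕ → A) (τ : ℝ) (p : Nat.Primes) : ter f 1 τ p =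
    (1 - (((p : ℕ) : ℂ) ^ (-(τ * I))).re) / ((p : ℕ) : ℝ) := by
  unfold ter
  rw [char_one', Circle.coe_one, one_mul]

omit [DiscreteTopology A] in
lemma one_unique (f : ℕ → A) (τ : ℝ) (h : Summable (ter f 1 τ)) : τ = 0 := by
  by_contra hτ
  apply not_summable_cos τ hτ
  refine h.congr fun p => ?_
  exact ter_one_eq f τ p

omit [DiscreteTopology A] in
lemma ter_unique (f : ℕ → A) (χ : PontryaginDual A) (s t : ℝ) (hs : Summable (ter f χ s))
    (ht : Summable (ter f χ t)) : s = t := by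
  have h1 : Summable (ter f (χ⁻¹) (-t)) := by
    rw [ter_inv_fun]; exact ht
  have h2 : Summable (ter f (χ * χ⁻¹) (s + -t)) :=
    Summable.of_nonneg_of_le (ter_nonneg f _ _) (ter_mul f χ (χ⁻¹) s (-t))
      ((hs.mul_left 2).add (h1.mul_left 2))
  rw [mul_inv_cancel] at h2
  have := one_unique f _ h2
  linarith

omit [DiscreteTopology A] in
lemma ter_pow (f : ℕ → A) (χ : PontryaginDual A) (s : ℝ) (hs : Summable (ter f χ s)) (m : ℕ) :
    Summable (ter f (χ ^ m) (m * s)) := by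
  induction m with
  | zero =>
    rw [pow_zero, Nat.cast_zero, zero_mul, ter_one_fun]
    exact summable_zero
  | succ m ih =>
    rw [pow_succ]
    have e : ((m + 1 : ℕ) : ℝ) * s = m * s + s := by push_cast; ring
    rw [e]
    exact Summable.of_nonneg_of_le (ter_nonneg f _ _) (ter_mul f (χ ^ m) χ (m * s) s)
      ((ih.mul_left 2).add (hs.mul_left 2))

section
variable [MeasurableSpace (PontryaginDual A)] [BorelSpace (PontryaginDual A)]

lemma measurable_Gam (f : ℕ → A) : MeasurableSet (Gam f : Set (PontryaginDual A)) := by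
  rw [Gam_eq_iUnion]
  exact MeasurableSet.iUnion fun K => (isClosed_CK f K).measurableSet

/-- If the pretentious characters have positive measure, then they are uniformly pretentious. -/
lemma exists_uniform (f : ℕ → A) (h : mu (A := A) (Gam f : Set (PontryaginDual A)) ≠ 0) :
    ∃ K : ℝ, (Gam f : Set (PontryaginDual A)) ⊆ CK f K := by
  have h1 : ∃ K : ℕ, mu (A := A) (CK f K) ≠ 0 := by
    by_contra hcon
    push Not at hcon
    apply h
    rw [Gam_eq_iUnion]
    exact measure_iUnion_null hcon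
  obtain ⟨K, hK⟩ := h1
  have h2 := Measure.div_mem_nhds_one_of_haar_pos (mu (A := A)) (CK f K)
    (isClosed_CK f K).measurableSet (pos_iff_ne_zero.mpr hK)
  have h3 : CK f K / CK f K ⊆ CK f (2 * (K + K)) := by
    rintro χ ⟨χ₁, h₁, χ₂, h₂, rfl⟩
    show χ₁ / χ₂ ∈ _
    rw [div_eq_mul_inv]
    exact CK_mul f K K χ₁ (χ₂⁻¹) h₁ (CK_inv f K χ₂ h₂)
  have h4 : CK f (2 * ((K : ℝ) + K)) ∈ 𝓝 (1 : PontryaginDual A) := mem_of_superset h2 h3
  have h5 : IsOpen (Gam f : Set (PontryaginDual A)) :=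
    Subgroup.isOpen_of_mem_nhds (Gam f) (mem_of_superset h4 (CK_subset f _))
  have h6 : IsClosed (Gam f : Set (PontryaginDual A)) := Subgroup.isClosed_of_isOpen _ h5
  have h7 : IsCompact (Gam f : Set (PontryaginDual A)) := h6.isCompact
  obtain ⟨t, ht1, ht2⟩ := h7.elim_nhds_subcover
    (fun χ => (fun ψ => χ * ψ) '' CK f (2 * ((K : ℝ) + K))) (fun χ _ => by
      have := (Homeomorph.mulLeft χ).isOpenMap.image_mem_nhds h4
      simpa using this)
  -- pick bounds
  have h8 : ∀ χ ∈ t, ∃ L : ℕ, χ ∈ CK f L := by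
    intro χ hχ
    have := ht1 χ hχ
    rw [Gam_eq_iUnion, Set.mem_iUnion] at this
    exact this
  choose! L hL using h8
  refine ⟨2 * ((∑ χ ∈ t, (L χ : ℝ)) + 2 * ((K : ℝ) + K)), ?_⟩
  intro χ hχ
  have h9 := ht2 hχ
  rw [Set.mem_iUnion₂] at h9
  obtain ⟨χ₀, hχ₀, ψ, hψ, rfl⟩ := h9
  show χ₀ * ψ ∈ _
  refine CK_mul f _ _ χ₀ ψ ?_ hψ
  refine CK_mono f _ _ ?_ (hL χ₀ hχ₀)
  exact Finset.single_le_sum (f := fun χ => (L χ : ℝ)) (fun i _ => Nat.cast_nonneg _) hχ₀

/-- In that case `τ = 0`. -/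
lemma exists_uniform' (f : ℕ → A) (h : mu (A := A) (Gam f : Set (PontryaginDual A)) ≠ 0) :
    ∃ K : ℝ, ∀ χ ∈ Gam f, ∀ F : Finset Nat.Primes, ∑ p ∈ F, ter f χ 0 p ≤ K := by
  obtain ⟨K, hK⟩ := exists_uniform f h
  refine ⟨K, fun χ hχ => ?_⟩
  obtain ⟨τ, hτ, hF⟩ := hK hχ
  have hs : Summable (ter f χ τ) := summable_of_sum_le (ter_nonneg f χ τ) hF
  have h0 : τ = 0 := by
    by_contra hτ0
    have hpos : 0 < |τ| := abs_pos.mpr hτ0
    obtain ⟨m, hm⟩ := exists_nat_gt (K / |τ|)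
    rw [div_lt_iff₀ hpos] at hm
    obtain ⟨τ', hτ', hF'⟩ := hK ((Gam f).pow_mem hχ m)
    have h1 := ter_unique f (χ ^ m) _ _ (ter_pow f χ τ hs m)
      (summable_of_sum_le (ter_nonneg f _ _) hF')
    have h2 : |(m : ℝ) * τ| ≤ K := by
      rw [h1]; exact abs_le.mpr hτ'
    rw [abs_mul, Nat.abs_cast] at h2
    linarith
  rw [h0] at hF
  exact hF

/-- the annihilator of `Γ` -/
def Ann (f : ℕ → A) : Subgroup A where
  carrier := {b | ∀ χ ∈ Gam f, χ b = 1}
  mul_mem' := by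
    intro a b ha hb χ hχ
    rw [char_mul, ha χ hχ, hb χ hχ, one_mul]
  one_mem' := fun χ _ => map_one χ
  inv_mem' := by
    intro a ha χ hχ
    have : χ (a⁻¹) = (χ a)⁻¹ := map_inv χ a
    rw [this, ha χ hχ, inv_one]

open Classical in
lemma summable_ann (f : ℕ → A) (h : mu (A := A) (Gam f : Set (PontryaginDual A)) ≠ 0) :
    Summable fun p : ℕ => if p.Prime ∧ f p ∉ Ann f then 1 / (p : ℝ) else 0 := by
  obtain ⟨K, hK⟩ := exists_uniform' f h
  have hΓ := measurable_Gam f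
  set m := (mu (A := A)).real (Gam f : Set (PontryaginDual A)) with hm
  have hm0 : 0 < m := by
    rw [hm, Measure.real, ENNReal.toReal_pos_iff]
    exact ⟨pos_iff_ne_zero.mpr h, measure_lt_top _ _⟩
  have hint : ∀ p : Nat.Primes, IntegrableOn (fun χ => ter f χ 0 p)
      (Gam f : Set (PontryaginDual A)) mu := by
    intro p
    unfold ter
    refine Integrable.div_const ?_ _
    refine Integrable.sub (integrable_const _) ?_
    have h1 := integrable_charC (f (p : ℕ)) (Gam f : Set (PontryaginDual A))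
    exact (h1.mul_const _).re
  have hval : ∀ p : Nat.Primes, ∫ χ in (Gam f : Set (PontryaginDual A)), ter f χ 0 p ∂mu =
      if f (p : ℕ) ∈ Ann f then 0 else m / ((p : ℕ) : ℝ) := by
    intro p
    have h1 : ∀ χ : PontryaginDual A, ter f χ 0 p =
        (1 - ((χ (f (p : ℕ)) : Circle) : ℂ).re) / ((p : ℕ) : ℝ) := by
      intro χ
      rw [ter_eq, pc_zero, mul_one]
    simp_rw [h1]
    have h4 : ∫ χ in (Gam f : Set (PontryaginDual A)),
        (1 - ((χ (f (p : ℕ)) : Circle) : ℂ).re) ∂mu =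
        ∫ _ in (Gam f : Set (PontryaginDual A)), (1 : ℝ) ∂(mu (A := A)) -
          ∫ χ in (Gam f : Set (PontryaginDual A)), ((χ (f (p : ℕ)) : Circle) : ℂ).re ∂mu :=
      integral_sub (integrable_const _)
        (integrable_charC (f (p : ℕ)) (Gam f : Set (PontryaginDual A))).re
    rw [integral_div, h4]
    have h2 : ∫ χ in (Gam f : Set (PontryaginDual A)), ((χ (f (p : ℕ)) : Circle) : ℂ).re ∂mu =
        (∫ χ in (Gam f : Set (PontryaginDual A)), ((χ (f (p : ℕ)) : Circle) : ℂ) ∂mu).re :=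
      integral_re (integrable_charC (f (p : ℕ)) (Gam f : Set (PontryaginDual A)))
    rw [h2]
    have h3 : ∫ _ in (Gam f : Set (PontryaginDual A)), (1 : ℝ) ∂(mu (A := A)) = m := by
      rw [setIntegral_const]; simp [hm]
    rw [h3]
    split_ifs with hp
    · rw [orth' (Gam f) hΓ _ hp]
      simp [hm]
    · have : ∃ χ ∈ Gam f, χ (f (p : ℕ)) ≠ 1 := by
        by_contra hcon
        push Not at hcon
        exact hp hcon
      rw [orth (Gam f) hΓ _ this]
      simp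
  -- summability over primes
  have h1 : Summable fun p : Nat.Primes => if f (p : ℕ) ∈ Ann f then 0 else 1 / ((p : ℕ) : ℝ) := by
    refine summable_of_sum_le (c := K) (fun p => by split_ifs <;> positivity) fun F => ?_
    have h2 : ∫ χ in (Gam f : Set (PontryaginDual A)), (∑ p ∈ F, ter f χ 0 p) ∂mu ≤
        ∫ _ in (Gam f : Set (PontryaginDual A)), K ∂(mu (A := A)) := by
      refine setIntegral_mono_on (integrable_finsetSum _ fun p _ => hint p)
        (integrable_const _) hΓ fun χ hχ => hK χ hχ F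
    rw [integral_finsetSum _ (fun p _ => hint p), setIntegral_const] at h2
    simp_rw [hval] at h2
    have h3 : ∑ p ∈ F, (if f (p : ℕ) ∈ Ann f then 0 else m / ((p : ℕ) : ℝ)) =
        m * ∑ p ∈ F, (if f (p : ℕ) ∈ Ann f then 0 else 1 / ((p : ℕ) : ℝ)) := by
      rw [Finset.mul_sum]
      refine Finset.sum_congr rfl fun p _ => ?_
      split_ifs
      · simp
      · ring
    rw [h3, ← hm, smul_eq_mul] at h2
    exact le_of_mul_le_mul_left h2 hm0
  have h2 : (fun p : ℕ => if p.Prime ∧ f p ∉ Ann f then 1 / (p : ℝ) else 0) =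
      Set.indicator {p : ℕ | p.Prime} (fun p => if f p ∈ Ann f then 0 else 1 / (p : ℝ)) := by
    ext p
    by_cases hp : p.Prime
    · rw [Set.indicator_of_mem (by exact hp)]
      by_cases hfp : f p ∈ Ann f <;> simp [hp, hfp]
    · rw [Set.indicator_of_notMem (by exact hp)]
      simp [hp]
  rw [h2, ← summable_subtype_iff_indicator]
  exact h1

end

end Pool.Agent.H489R2
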