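import Mathlib
import Pool.Agent.H489R2.Grp

set_option autoImplicit false

/-!
# Completely multiplicative functions with values in an abelian group have densities
-/

namespace Pool.Agent.H489R2

open Filter Topology MeasureTheory Complex

section
variable {A : Type*} [CommGroup A] [TopologicalSpace A] [DiscreteTopology A]

/-- the scalar function `χ ∘ f` -/
noncomputable def gchi (f : ℕ → A) (hf1 : f 1 = 1)
    (hf : ∀ m n, 0 < m → 0 < n → f (m * n) = f m * f n) (χ : PontryaginDual A) : ℕ →*₀ ℂ where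
  toFun n := if n = 0 then 0 else ((χ (f n) : Circle) : ℂ)
  map_zero' := by simp
  map_one' := by
    rw [if_neg one_ne_zero, hf1]
    have : χ (1 : A) = 1 := map_one χ
    rw [this, Circle.coe_one]
  map_mul' m n := by
    rcases Nat.eq_zero_or_pos m with rfl | hm
    · simp
    rcases Nat.eq_zero_or_pos n with rfl | hn
    · simp
    rw [if_neg (Nat.mul_pos hm hn).ne', if_neg hm.ne', if_neg hn.ne', hf m n hm hn, char_mul,
      Circle.coe_mul]

variable (f : ℕ → A) (hf1 : f 1 = 1) (hf : ∀ m n, 0 < m → 0 < n → f (m * n) = f m * f n)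

include hf1 hf in
lemma mean_tendsto_zero (χ : PontryaginDual A) (hχ : χ ∉ Gam f) :
    Tendsto (fun N : ℕ => (∑ n ∈ Finset.Ioc 0 N, ((χ (f n) : Circle) : ℂ)) / N) atTop (𝓝 0) := by
  have h1 : ∀ n, ‖gchi f hf1 hf χ n‖ ≤ 1 := by
    intro n
    show ‖if n = 0 then 0 else ((χ (f n) : Circle) : ℂ)‖ ≤ 1
    split_ifs
    · simp
    · exact (Circle.norm_coe _).le
  have h2 : NonPret (gchi f hf1 hf χ) := by
    intro t hsum
    apply hχ
    refine ⟨t, hsum.congr fun p => ?_⟩
    unfold ter
    have : gchi f hf1 hf χ (p : ℕ) = ((χ (f (p : ℕ)) : Circle) : ℂ) := if_neg p.2.ne_zero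
    rw [this]
  have h3 := halasz (gchi f hf1 hf χ) h1 h2
  refine h3.congr fun N => ?_
  congr 1
  refine Finset.sum_congr rfl fun n hn => ?_
  rw [Finset.mem_Ioc] at hn
  exact if_neg hn.1.ne'

variable [MeasurableSpace (PontryaginDual A)] [BorelSpace (PontryaginDual A)]

open Classical in
lemma full_orth (b : A) : ∫ χ, ((χ b : Circle) : ℂ) ∂(mu (A := A)) = if b = 1 then 1 else 0 := by
  have h1 : ∫ χ, ((χ b : Circle) : ℂ) ∂(mu (A := A)) =
      ∫ χ in ((⊤ : Subgroup (PontryaginDual A)) : Set (PontryaginDual A)),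
        ((χ b : Circle) : ℂ) ∂(mu (A := A)) := by
    rw [Subgroup.coe_top, setIntegral_univ]
  rw [h1]
  split_ifs with hb
  · rw [orth' ⊤ (by rw [Subgroup.coe_top]; exact MeasurableSet.univ) b]
    · rw [Subgroup.coe_top, Measure.real, mu_univ]; simp
    · intro χ _
      rw [hb]; exact map_one χ
  · obtain ⟨χ, hχ⟩ := exists_char b hb
    exact orth ⊤ (by rw [Subgroup.coe_top]; exact MeasurableSet.univ) b ⟨χ, Subgroup.mem_top _, hχ⟩

open Classical in
lemma gam_orth (b : A) :
    ∫ χ in (Gam f : Set (PontryaginDual A)), ((χ b : Circle) : ℂ) ∂(mu (A := A)) =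
      (mu (A := A)).real (Gam f : Set (PontryaginDual A)) * if b ∈ Ann f then 1 else 0 := by
  split_ifs with hb
  · rw [orth' (Gam f) (measurable_Gam f) b hb, mul_one]
  · rw [mul_zero]
    refine orth (Gam f) (measurable_Gam f) b ?_
    by_contra hcon
    push Not at hcon
    exact hb hcon

include hf1 hf in
lemma compl_tendsto (a : A) : Tendsto (fun N : ℕ =>
    ∫ χ in (Gam f : Set (PontryaginDual A))ᶜ,
      (∑ n ∈ Finset.Ioc 0 N, ((χ (f n * a⁻¹) : Circle) : ℂ)) / N ∂(mu (A := A))) atTop (𝓝 0) := by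
  have h0 : (0 : ℂ) = ∫ χ in (Gam f : Set (PontryaginDual A))ᶜ, (0 : ℂ) ∂(mu (A := A)) := by simp
  rw [h0]
  refine tendsto_integral_of_dominated_convergence (fun _ => (1 : ℝ)) ?_ (integrable_const _) ?_ ?_
  · intro N
    apply Continuous.aestronglyMeasurable
    refine Continuous.div_const ?_ _
    exact continuous_finsetSum _ fun n _ => continuous_charC _
  · intro N
    refine Eventually.of_forall fun χ => ?_
    rcases Nat.eq_zero_or_pos N with rfl | hN
    · simp
    have hN' : (0 : ℝ) < N := by exact_mod_cast hN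
    rw [norm_div, Complex.norm_natCast, div_le_one hN']
    refine (norm_sum_le _ _).trans ?_
    have : ∀ n ∈ Finset.Ioc 0 N, ‖((χ (f n * a⁻¹) : Circle) : ℂ)‖ = 1 :=
      fun n _ => Circle.norm_coe _
    rw [Finset.sum_congr rfl this]
    simp
  · refine ae_restrict_of_forall_mem (measurable_Gam f).compl fun χ hχ => ?_
    have h1 := (mean_tendsto_zero f hf1 hf χ hχ).mul_const ((χ a⁻¹ : Circle) : ℂ)
    rw [zero_mul] at h1
    refine h1.congr fun N => ?_
    rw [div_mul_eq_mul_div, Finset.sum_mul]
    congr 1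
    refine Finset.sum_congr rfl fun n _ => ?_
    rw [char_mul, Circle.coe_mul]

open Classical in
include hf1 hf in
lemma cnt_asymp (a : A) : Tendsto (fun N : ℕ => (cnt f a N / N : ℝ) -
    (mu (A := A)).real (Gam f : Set (PontryaginDual A)) *
      ((∑ n ∈ Finset.Ioc 0 N, if f n * a⁻¹ ∈ Ann f then (1 : ℝ) else 0) / N)) atTop (𝓝 0) := by
  have h1 := compl_tendsto f hf1 hf a
  have key : ∀ N : ℕ, (∫ χ in (Gam f : Set (PontryaginDual A))ᶜ,
      (∑ n ∈ Finset.Ioc 0 N, ((χ (f n * a⁻¹) : Circle) : ℂ)) / N ∂(mu (A := A))) =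
      ((((cnt f a N / N : ℝ) - (mu (A := A)).real (Gam f : Set (PontryaginDual A)) *
      ((∑ n ∈ Finset.Ioc 0 N, if f n * a⁻¹ ∈ Ann f then (1 : ℝ) else 0) / N) : ℝ)) : ℂ) := by
    intro N
    have hint : Integrable (fun χ : PontryaginDual A =>
        (∑ n ∈ Finset.Ioc 0 N, ((χ (f n * a⁻¹) : Circle) : ℂ)) / N) (mu (A := A)) := by
      refine Integrable.div_const ?_ _
      refine integrable_finsetSum _ fun n _ => ?_
      have := integrable_charC (f n * a⁻¹) Set.univ
      rwa [integrableOn_univ] at this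
    have h2 := integral_add_compl (measurable_Gam f) hint
    have h3 : ∫ χ, (∑ n ∈ Finset.Ioc 0 N, ((χ (f n * a⁻¹) : Circle) : ℂ)) / N ∂(mu (A := A)) =
        ((cnt f a N / N : ℝ) : ℂ) := by
      rw [integral_div, integral_finsetSum]
      · simp_rw [full_orth]
        unfold cnt
        push_cast
        congr 1
        refine Finset.sum_congr rfl fun n _ => ?_
        have : (f n * a⁻¹ = 1) ↔ (f n = a) := mul_inv_eq_one
        simp only [this]
        split_ifs <;> simp
      · intro n _
        have := integrable_charC (f n * a⁻¹) Set.univ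
        rwa [integrableOn_univ] at this
    have h4 : ∫ χ in (Gam f : Set (PontryaginDual A)),
        (∑ n ∈ Finset.Ioc 0 N, ((χ (f n * a⁻¹) : Circle) : ℂ)) / N ∂(mu (A := A)) =
        (((mu (A := A)).real (Gam f : Set (PontryaginDual A)) *
          ((∑ n ∈ Finset.Ioc 0 N, if f n * a⁻¹ ∈ Ann f then (1 : ℝ) else 0) / N) : ℝ) : ℂ) := by
      rw [integral_div, integral_finsetSum]
      · simp_rw [gam_orth]
        rw [← Finset.mul_sum]
        have e : ((∑ n ∈ Finset.Ioc 0 N, if f n * a⁻¹ ∈ Ann f then (1 : ℝ) else 0 : ℝ) : ℂ) =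
            ∑ n ∈ Finset.Ioc 0 N, if f n * a⁻¹ ∈ Ann f then (1 : ℂ) else 0 := by
          rw [Complex.ofReal_sum]
          refine Finset.sum_congr rfl fun n _ => ?_
          split_ifs <;> simp
        rw [← e, mul_div_assoc]
        push_cast
        rfl
      · intro n _
        exact integrable_charC (f n * a⁻¹) _
    rw [h3, h4] at h2
    rw [Complex.ofReal_sub, ← h2]
    ring
  simp_rw [key] at h1
  have h5 := (Complex.continuous_re.tendsto 0).comp h1
  rw [Complex.zero_re] at h5
  refine h5.congr fun N => ?_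
  rw [Function.comp_apply, Complex.ofReal_re]

omit [TopologicalSpace A] [DiscreteTopology A] [MeasurableSpace (PontryaginDual A)]
  [BorelSpace (PontryaginDual A)] in
lemma hasDens_one {B : Type*} [Group B] : HasDens (fun _ : ℕ => (1 : B)) := by
  classical
  intro b
  by_cases hb : (1 : B) = b
  · refine ⟨1, ?_⟩
    refine tendsto_const_nhds.congr' ?_
    filter_upwards [eventually_gt_atTop 0] with N hN
    have hN' : (N : ℝ) ≠ 0 := by exact_mod_cast hN.ne'
    unfold cnt
    simp [hb, hN']
  · refine ⟨0, ?_⟩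
    refine tendsto_const_nhds.congr' ?_
    filter_upwards [eventually_gt_atTop 0] with N hN
    unfold cnt
    simp [hb]

include hf1 hf in
theorem hasDens_aux : HasDens f := by
  classical
  intro a
  have h1 := cnt_asymp f hf1 hf a
  by_cases h : mu (A := A) (Gam f : Set (PontryaginDual A)) = 0
  · refine ⟨0, h1.congr fun N => ?_⟩
    rw [Measure.real, h]
    simp
  · have h2 := summable_ann f h
    -- the quotient function
    set fb : ℕ → A ⧸ Ann f := fun n => (f n : A ⧸ Ann f) with hfb
    have h3 : HasDens fb := by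
      refine dens_transfer fb (fun _ => 1) ?_ ?_ rfl ?_ ?_ ?_ hasDens_one
      · rw [hfb]; simp only [hf1]; rfl
      · intro m n hm hn _
        rw [hfb]
        simp only [hf m n hm hn]
        rfl
      · intro p m _ _
        rw [one_mul]
      · intro p q k _ _ _
        rw [one_mul, mul_one]
      · refine h2.congr fun p => ?_
        have : (f p ∉ Ann f) ↔ (fb p ≠ 1) := by
          rw [hfb]
          simp only [ne_eq, QuotientGroup.eq_one_iff]
        simp only [this]
        split_ifs <;> rfl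
    obtain ⟨d, hd⟩ := h3 (a : A ⧸ Ann f)
    refine ⟨(mu (A := A)).real (Gam f : Set (PontryaginDual A)) * d, ?_⟩
    have h4 := h1.add (hd.const_mul ((mu (A := A)).real (Gam f : Set (PontryaginDual A))))
    rw [zero_add] at h4
    refine h4.congr fun N => ?_
    have h5 : (∑ n ∈ Finset.Ioc 0 N, if f n * a⁻¹ ∈ Ann f then (1 : ℝ) else 0) =
        cnt fb (a : A ⧸ Ann f) N := by
      unfold cnt
      refine Finset.sum_congr rfl fun n _ => ?_
      have : (f n * a⁻¹ ∈ Ann f) ↔ (fb n = (a : A ⧸ Ann f)) := by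
        rw [hfb]
        simp only
        rw [eq_comm, QuotientGroup.eq, mul_comm]
      simp only [this]
      split_ifs <;> rfl
    rw [h5]
    ring

end

/-- **Densities of the values of a completely multiplicative function with values in an abelian
group.** -/
theorem hasDens_comm {A : Type*} [CommGroup A] (f : ℕ → A) (hf1 : f 1 = 1)
    (hf : ∀ m n, 0 < m → 0 < n → f (m * n) = f m * f n) : HasDens f := by
  letI : TopologicalSpace A := ⊥
  haveI : DiscreteTopology A := ⟨rfl⟩
  letI : MeasurableSpace (PontryaginDual A) := borel _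
  haveI : BorelSpace (PontryaginDual A) := ⟨rfl⟩
  exact hasDens_aux f hf1 hf

end Pool.Agent.H489R2
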